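import Pool.Agent.H619.BB.St
import Pool.Agent.H619.CS.AFF
import Pool.Agent.H619.CS.SIM

/-!
# Project BB: the centroid of a simplex (leaf CENS)
-/

set_option autoImplicit false
set_option linter.unusedSectionVars false

open MeasureTheory Set Module
open scoped Pointwise NNReal ENNReal

noncomputable section

namespace Pool.Agent.H619.BB

namespace CENS

open Pool.Agent.H619.CS (cen)

variable {n : ℕ}

/-- an affine equivalence which permutes the vertices -/
theorem exch (v : Fin (n + 1) → E n) (hv : AffineIndependent ℝ v) (π : Equiv.Perm (Fin (n + 1))) :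
    ∃ (e : E n ≃L[ℝ] E n) (b : E n), ∀ i, e (v i) + b = v (π i) := by
  have hv' : AffineIndependent ℝ (fun i => v (π i)) := hv.comp_embedding π.toEmbedding
  let B := Module.Basis.mk (Pool.Agent.H619.CS.SIM.lin (n := n) hv)
    (by rw [(Pool.Agent.H619.CS.SIM.lin (n := n) hv).span_eq_top_of_card_eq_finrank' (by simp)])
  let B' := Module.Basis.mk (Pool.Agent.H619.CS.SIM.lin (n := n) hv')
    (by rw [(Pool.Agent.H619.CS.SIM.lin (n := n) hv').span_eq_top_of_card_eq_finrank' (by simp)])
  have hB : ∀ i, B i = v i.succ - v 0 := fun i => by simp [B]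
  have hB' : ∀ i, B' i = v (π i.succ) - v (π 0) := fun i => by simp [B']
  let e : E n ≃L[ℝ] E n := (B.equiv B' (Equiv.refl _)).toContinuousLinearEquiv
  have he : ∀ i : Fin n, e (v i.succ - v 0) = v (π i.succ) - v (π 0) := by
    intro i
    have : (B.equiv B' (Equiv.refl _)) (B i) = B' i := by simp
    rw [hB, hB'] at this
    exact this
  refine ⟨e, v (π 0) - e (v 0), fun i => ?_⟩
  refine Fin.cases ?_ (fun j => ?_) i
  · abel
  · have h := he j
    rw [map_sub] at h
    have h2 : e (v j.succ) = v (π j.succ) - v (π 0) + e (v 0) := by rw [← h]; abel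
    rw [h2]
    abel

theorem hull_eq (v : Fin (n + 1) → E n) (π : Equiv.Perm (Fin (n + 1))) (e : E n ≃L[ℝ] E n) (b : E n)
    (h : ∀ i, e (v i) + b = v (π i)) :
    (fun x => e x + b) '' convexHull ℝ (range v) = convexHull ℝ (range v) := by
  let f : E n →ᵃ[ℝ] E n :=
    (e.toLinearEquiv.toLinearMap.toAffineMap) + AffineMap.const ℝ _ b
  have hf : ∀ x, f x = e x + b := fun x => rfl
  have h1 := f.image_convexHull (range v)
  have h2 : f '' range v = range v := by
    rw [← range_comp]
    have h3 : (f ∘ v) = v ∘ π := by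
      funext i
      rw [Function.comp_apply, hf, h]
      rfl
    rw [h3]
    exact π.surjective.range_comp v
  rw [h2] at h1
  exact h1

/-- the barycentric coordinates of the centroid are equal -/
theorem coord_eq (bs : AffineBasis (Fin (n + 1)) ℝ (E n)) (i j : Fin (n + 1)) :
    bs.coord i (cen volume (convexHull ℝ (range bs))) =
      bs.coord j (cen volume (convexHull ℝ (range bs))) := by
  obtain ⟨e, b, h⟩ := exch bs bs.ind (Equiv.swap i j)
  obtain ⟨κ, -, -, -, hc⟩ := Pool.Agent.H619.CS.aff (E n) (E n) volume volume e b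
  have hcomp : IsCompact (convexHull ℝ (range bs)) := (finite_range bs).isCompact_convexHull ℝ
  have h1 := (hc _ hcomp (Pool.Agent.H619.CS.SIM.pos (n := n) bs.ind)).1
  rw [hull_eq bs (Equiv.swap i j) e b h] at h1
  generalize hx : cen volume (convexHull ℝ (range bs)) = x at h1 ⊢
  have hx1 := bs.sum_coord_apply_eq_one x
  have hxs := bs.linear_combination_coord_eq_self x
  have hcomb : ∀ β : Fin (n + 1) → ℝ, ∑ i, β i = 1 → ∀ i, bs.coord i (∑ j, β j • bs j) = β i := by
    intro β hβ i
    have h1 := bs.coord_apply_combination_of_mem (s := Finset.univ) (Finset.mem_univ i) hβ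
    rw [Finset.affineCombination_eq_linear_combination _ _ _ hβ] at h1
    exact h1
  -- the image of x
  have h2 : e x + b = ∑ k, bs.coord k x • bs (Equiv.swap i j k) := by
    have e1 : ∀ k, bs (Equiv.swap i j k) = e (bs k) + b := fun k => (h k).symm
    rw [Finset.sum_congr rfl fun k _ => by rw [e1 k, smul_add], Finset.sum_add_distrib,
      ← Finset.sum_smul, hx1, one_smul]
    congr 1
    conv_lhs => rw [← hxs]
    rw [map_sum]
    exact Finset.sum_congr rfl fun k _ => map_smul _ _ _
  have h3 : ∑ k, bs.coord k x • bs (Equiv.swap i j k) =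
      ∑ k, bs.coord (Equiv.swap i j k) x • bs k := by
    rw [← Equiv.sum_comp (Equiv.swap i j) (fun k => bs.coord (Equiv.swap i j k) x • bs k)]
    refine Finset.sum_congr rfl fun k _ => ?_
    rw [Equiv.swap_apply_self]
  have h4 : ∑ k, bs.coord (Equiv.swap i j k) x = 1 := by
    rw [Equiv.sum_comp (Equiv.swap i j) (fun k => bs.coord k x)]
    exact hx1
  have h5 := hcomb (fun k => bs.coord (Equiv.swap i j k) x) h4 i
  rw [← h3, ← h2, ← h1] at h5
  rw [h5, Equiv.swap_apply_left]

end CENS

open CENS

theorem cens : S_CENS := by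
  intro n v hv
  have htop : affineSpan ℝ (range v) = ⊤ := by
    rw [hv.affineSpan_eq_top_iff_card_eq_finrank_add_one]
    simp
  let bs : AffineBasis (Fin (n + 1)) ℝ (E n) := ⟨v, hv, htop⟩
  have hbs : ∀ i, bs i = v i := fun i => rfl
  have hbs' : (bs : Fin (n + 1) → E n) = v := rfl
  rw [← hbs']
  generalize hx : Pool.Agent.H619.CS.cen volume (convexHull ℝ (range bs)) = x
  have hco : ∀ i, bs.coord i x = bs.coord 0 x := by
    intro i
    rw [← hx]
    exact coord_eq bs i 0
  have hx1 := bs.sum_coord_apply_eq_one x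
  have hxs := bs.linear_combination_coord_eq_self x
  rw [Finset.sum_congr rfl fun i _ => hco i, Finset.sum_const, Finset.card_univ, Fintype.card_fin,
    nsmul_eq_mul] at hx1
  have h0 : bs.coord 0 x = ((n : ℝ) + 1)⁻¹ := by
    push_cast at hx1
    have hn : (n : ℝ) + 1 ≠ 0 := by positivity
    field_simp
    linarith
  conv_lhs => rw [← hxs]
  rw [Finset.smul_sum]
  refine Finset.sum_congr rfl fun i _ => ?_
  rw [hco i, h0]

end Pool.Agent.H619.BB

end
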