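import Pool.Agent.H619.BB.St

/-!
# Project BB, task EXT: extremal bodies and Blaschke bodies
-/

set_option autoImplicit false
set_option linter.unusedSectionVars false

open MeasureTheory Set Module Filter Topology
open scoped Pointwise NNReal ENNReal

noncomputable section

namespace Pool.Agent.H619.BB

namespace EXT

variable {n : ℕ}

theorem vol_nonneg (S : Set (E n)) : 0 ≤ vol S := ENNReal.toReal_nonneg

theorem vol_pos {K : Set (E n)} (h : IsCompact K) (hK : (interior K).Nonempty) : 0 < vol K := by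
  unfold vol
  exact ENNReal.toReal_pos (Measure.measure_pos_of_nonempty_interior _ hK).ne'
    h.measure_lt_top.ne

theorem vol_mono {S T : Set (E n)} (h : S ⊆ T) (hT : volume T ≠ ⊤) : vol S ≤ vol T :=
  ENNReal.toReal_mono hT (measure_mono h)

theorem vol_smul_set (l : ℝ) (hl : 0 ≤ l) (S : Set (E n)) : vol (l • S) = l ^ n * vol S := by
  unfold vol
  have hd : finrank ℝ (E n) = n := by simp
  rw [Measure.addHaar_smul, ENNReal.toReal_mul, hd, ENNReal.toReal_ofReal (abs_nonneg _),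
    abs_of_nonneg (by positivity)]

theorem vol_neg (S : Set (E n)) : vol (-S) = vol S := by
  unfold vol
  rw [Measure.measure_neg]

theorem nonempty_of_vol {S : Set (E n)} (h : 0 < vol S) : S.Nonempty := by
  by_contra hne
  rw [Set.not_nonempty_iff_eq_empty] at hne
  rw [hne] at h
  simp [vol] at h

theorem root (hn : 1 ≤ n) {x : ℝ} (hx : 0 ≤ x) : ∃ y : ℝ, 0 ≤ y ∧ y ^ n = x :=
  ⟨x ^ ((n : ℝ)⁻¹), Real.rpow_nonneg hx _, Real.rpow_inv_natCast_pow hx (by omega)⟩

/-- the derivative of a function which is nonnegative to the right of a zero -/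
theorem deriv_nonneg {h : ℝ → ℝ} {d : ℝ} (hd : HasDerivWithinAt h d (Ici 0) 0) (h0 : h 0 = 0)
    (hp : ∀ᶠ ε in 𝓝[>] (0 : ℝ), 0 ≤ h ε) : 0 ≤ d := by
  have h1 : HasDerivWithinAt h d (Ioi 0) 0 := hd.mono Ioi_subset_Ici_self
  rw [hasDerivWithinAt_iff_tendsto_slope' (by simp)] at h1
  refine ge_of_tendsto h1 ?_
  filter_upwards [hp, self_mem_nhdsWithin] with ε hε hpos
  have hpos' : 0 < ε := hpos
  rw [slope_def_field, h0, sub_zero, sub_zero]
  positivity

theorem zero_mem {B : Set (E n)} (hB : Body B) (hs : -B = B) : (0 : E n) ∈ interior B := by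
  obtain ⟨hc, hconv, z, hz⟩ := hB
  have hneg : -z ∈ interior B := by
    have h1 : interior (-B) = -interior B := ((Homeomorph.neg (E n)).preimage_interior B).symm
    rw [hs] at h1
    rw [h1, Set.mem_neg, neg_neg]
    exact hz
  have h := hconv.interior hz hneg (by norm_num : (0 : ℝ) ≤ 1 / 2)
    (by norm_num : (0 : ℝ) ≤ 1 / 2) (by norm_num)
  have e : (1 / 2 : ℝ) • z + (1 / 2 : ℝ) • (-z) = 0 := by module
  rwa [e] at h

/-- the volume of the sum with a multiple of `B` has the right derivative `n vol B` -/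
theorem deriv_f {K B : Set (E n)} (hB : Bla K B) :
    HasDerivWithinAt (fun ε : ℝ => vol (K + ε • B)) ((n : ℝ) * vol B) (Ici 0) 0 := by
  obtain ⟨hBb, hs, hv⟩ := hB
  have hne : B.Nonempty := hBb.2.2.mono interior_subset
  have h1 := hv B hBb.1 hBb.2.1 hne
  have hp : HasDerivAt (fun ε : ℝ => (1 + ε) ^ n * vol B) ((n : ℝ) * vol B) 0 := by
    have h2 : HasDerivAt (fun ε : ℝ => 1 + ε) 1 0 := (hasDerivAt_id (0 : ℝ)).const_add 1
    have h3 := (h2.fun_pow n).mul_const (vol B)
    simpa using h3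
  have h4 := hp.hasDerivWithinAt (s := Ici 0) |>.sub h1
  rw [sub_zero] at h4
  refine h4.congr_of_mem ?_ (by simp)
  intro ε hε
  have hε0 : 0 ≤ ε := hε
  have e1 : vol (B + ε • B) = (1 + ε) ^ n * vol B := by
    have e2 : B + ε • B = (1 + ε) • B := by
      have h5 := hBb.2.1.add_smul (zero_le_one) hε0
      rw [h5, one_smul]
    rw [e2, vol_smul_set _ (by linarith)]
  have e3 : vol (-K + ε • B) = vol (K + ε • B) := by
    have e4 : -K + ε • B = -(K + ε • B) := by
      rw [neg_add, ← Set.smul_set_neg, hs]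
    rw [e4, vol_neg]
  simp only [Pi.sub_apply]
  rw [e1, e3]
  ring

end EXT

open EXT in
theorem ext (sh : S_SHELLN) (ad : S_ADDN) : S_EXT := by
  intro n K B r hn hK hB hsy hero
  have hBb := hB.1
  have hs := hB.2.1
  have hV : 0 < vol K := vol_pos hK.1 hK.2.2
  have hb : 0 < vol B := vol_pos hBb.1 hBb.2.2
  have hKne : K.Nonempty := hK.2.2.mono interior_subset
  have hBne : B.Nonempty := hBb.2.2.mono interior_subset
  obtain ⟨ζ, hζ0, hζ⟩ := root hn hb.le
  -- `r` is positive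
  have hr : 0 < r := by
    obtain ⟨x, hx⟩ := hK.2.2
    have h1 : 0 < vol (sy (x + x) K) := by
      have hmem : x ∈ interior (sy (x + x) K) := by
        have hop : IsOpen (interior K ∩ (fun y => x + x - y) ⁻¹' interior K) :=
          isOpen_interior.inter (isOpen_interior.preimage (continuous_const.sub continuous_id))
        refine mem_interior.2 ⟨_, ?_, hop, hx, ?_⟩
        · rintro y ⟨hy1, hy2⟩
          exact ⟨interior_subset hy1, interior_subset hy2⟩
        · show x + x - x ∈ interior K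
          rw [add_sub_cancel_right]
          exact hx
      have hcomp : volume (sy (x + x) K) ≠ ⊤ :=
        ((measure_mono fun y hy => hy.1).trans_lt hK.1.measure_lt_top).ne
      unfold vol
      exact ENNReal.toReal_pos (Measure.measure_pos_of_nonempty_interior _ ⟨x, hmem⟩).ne' hcomp
    have h2 := hsy (x + x)
    by_contra hneg
    push Not at hneg
    have : r * vol K ≤ 0 := mul_nonpos_of_nonpos_of_nonneg hneg hV.le
    linarith
  obtain ⟨s, hs0, hsn⟩ := root hn (mul_pos hr hV).le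
  have hf := deriv_f hB
  set f : ℝ → ℝ := fun ε : ℝ => vol (K + ε • B) with hfdef
  have hf0 : f 0 = vol K := by
    show vol (K + (0 : ℝ) • B) = vol K
    rw [zero_smul_set hBne, add_zero]
  set q : ℝ → ℝ := fun ε => 2 * vol K - f ε with hqdef
  have hq : HasDerivWithinAt q (-((n : ℝ) * vol B)) (Ici 0) 0 := by
    have := hf.const_sub (2 * vol K)
    exact this
  have hq0 : q 0 = vol K := by
    show 2 * vol K - f 0 = vol K
    rw [hf0]; ring
  have hqpos : ∀ᶠ ε in 𝓝[>] (0 : ℝ), 0 < q ε := by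
    have h1 : Tendsto q (𝓝[Ici 0] 0) (𝓝 (q 0)) := hq.continuousWithinAt
    have h2 : Tendsto q (𝓝[>] 0) (𝓝 (q 0)) := h1.mono_left (nhdsWithin_mono _ Ioi_subset_Ici_self)
    exact h2.eventually (lt_mem_nhds (by rw [hq0]; exact hV))
  -- the function which is compared
  set h : ℝ → ℝ := fun ε => (s - ε * ζ) ^ n - r * q ε with hhdef
  have hh0 : h 0 = 0 := by
    show (s - 0 * ζ) ^ n - r * q 0 = 0
    rw [zero_mul, sub_zero, hsn, hq0, sub_self]
  have hh : HasDerivWithinAt h (-((n : ℝ) * s ^ (n - 1) * ζ) + r * ((n : ℝ) * vol B)) (Ici 0) 0 := by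
    have h1 : HasDerivAt (fun ε : ℝ => s - ε * ζ) (-ζ) 0 := by
      have h2 := ((hasDerivAt_id (0 : ℝ)).mul_const ζ).const_sub s
      simpa using h2
    have h3 := (h1.fun_pow n).hasDerivWithinAt (s := Ici 0)
    have h4 := h3.sub (hq.const_mul r)
    have e : (n : ℝ) * (s - 0 * ζ) ^ (n - 1) * -ζ - r * -((n : ℝ) * vol B) =
        -((n : ℝ) * s ^ (n - 1) * ζ) + r * ((n : ℝ) * vol B) := by
      rw [zero_mul, sub_zero]; ring
    rw [e] at h4
    exact h4
  have hhp : ∀ᶠ ε in 𝓝[>] (0 : ℝ), 0 ≤ h ε := by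
    filter_upwards [hqpos, self_mem_nhdsWithin] with ε hqε hpos
    have hε : 0 < ε := hpos
    -- the bodies
    obtain ⟨Kb, hKb⟩ : ∃ Kb : ConvexBody (E n), (Kb : Set (E n)) = K :=
      ⟨⟨K, hK.2.1, hK.1, hKne⟩, rfl⟩
    obtain ⟨Z, hZ⟩ : ∃ Z : ConvexBody (E n), (Z : Set (E n)) = ε • B :=
      ⟨⟨ε • B, hBb.2.1.smul ε, hBb.1.smul ε, hBne.smul_set⟩, rfl⟩
    have hZ0 : (0 : E n) ∈ interior (Z : Set (E n)) := by
      rw [hZ, interior_smul₀ hε.ne']
      exact ⟨0, zero_mem hBb hs, smul_zero _⟩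
    have hshell := sh n Kb Z (by rw [hKb]; exact hK.2.2) hZ0
    rw [hKb, hZ] at hshell
    have hqe : q ε ≤ vol (ero K (ε • B)) := by
      show 2 * vol K - vol (K + ε • B) ≤ _
      linarith
    have hepos : 0 < vol (ero K (ε • B)) := lt_of_lt_of_le hqε hqe
    obtain ⟨c, hc⟩ := hero ε hε hepos
    have hcpos : 0 < vol (sy c (ero K (ε • B))) := lt_of_lt_of_le (mul_pos hr hepos) hc
    obtain ⟨a, ha0, ha⟩ := root hn (mul_pos hr hqε).le
    have hZs : ∀ y ∈ Z, -y ∈ Z := by
      intro y hy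
      have hy' : y ∈ (Z : Set (E n)) := hy
      rw [hZ] at hy'
      obtain ⟨w, hw, rfl⟩ := hy'
      have : (-w) ∈ B := by
        rw [← hs, Set.mem_neg, neg_neg]
        exact hw
      show -(ε • w) ∈ (Z : Set (E n))
      rw [hZ]
      exact ⟨-w, this, by simp⟩
    have hadd := ad n Kb Z c a (ε * ζ) hZs ha0 (by positivity)
      (by rw [hKb, hZ]; exact nonempty_of_vol hcpos)
      (by
        rw [hKb, hZ, ha]
        exact (mul_le_mul_of_nonneg_left hqe hr.le).trans hc)
      (by rw [hZ, vol_smul_set ε hε.le, mul_pow, hζ])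
    rw [hKb] at hadd
    have hle : (a + ε * ζ) ^ n ≤ s ^ n := by
      rw [hsn]
      exact hadd.trans (hsy c)
    have hle2 : a + ε * ζ ≤ s := le_of_pow_le_pow_left₀ (by omega) hs0 hle
    have hfin : a ^ n ≤ (s - ε * ζ) ^ n := pow_le_pow_left₀ ha0 (by linarith) n
    show 0 ≤ (s - ε * ζ) ^ n - r * q ε
    rw [← ha]
    linarith
  have hkey := deriv_nonneg hh hh0 hhp
  have hn0 : (0 : ℝ) < n := by exact_mod_cast hn
  have hkey2 : s ^ (n - 1) * ζ ≤ r * vol B := by
    have h1 : (n : ℝ) * (s ^ (n - 1) * ζ) ≤ (n : ℝ) * (r * vol B) := by linarith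
    exact le_of_mul_le_mul_left h1 hn0
  -- the power
  have hpow := pow_le_pow_left₀ (by positivity) hkey2 n
  have e1 : (s ^ (n - 1) * ζ) ^ n = (r ^ (n - 1) * vol B) * vol K ^ (n - 1) := by
    rw [mul_pow, ← pow_mul, mul_comm (n - 1) n, pow_mul, hsn, hζ, mul_pow]
    ring
  have e2 : (r * vol B) ^ n = (r ^ (n - 1) * vol B) * (r * vol B ^ (n - 1)) := by
    obtain ⟨m, rfl⟩ : ∃ m, n = m + 1 := ⟨n - 1, by omega⟩
    rw [Nat.add_sub_cancel, pow_succ, mul_pow]
    ring
  rw [e1, e2] at hpow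
  exact le_of_mul_le_mul_left hpow (by positivity)

end Pool.Agent.H619.BB

end
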