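import Pool.Agent.H619.BB.St

/-!
# Project BB (helper619), MP_43065d_gt: the inequality SHELL in dimension `n`

Port of `Pool/Agent/H619/SB/{SHP,OUT,SHELL}.lean`.
-/

set_option autoImplicit false
set_option linter.unusedSectionVars false

open MeasureTheory Set Module Filter Topology
open scoped Pointwise NNReal ENNReal

noncomputable section

namespace Pool.Agent.H619.BB

namespace SHELLN

variable {n : ℕ}

/-- the polytope given by a finite set of inequalities `u x ≤ h` -/
def poly (F : Finset ((E n →L[ℝ] ℝ) × ℝ)) : Set (E n) := {x | ∀ f ∈ F, f.1 x ≤ f.2}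

/-- the translate `K + x` -/
def tr (x : E n) (K : ConvexBody (E n)) : ConvexBody (E n) := K + Pool.Agent.TH650.MV.sing x

theorem mem_tr {x : E n} {K : ConvexBody (E n)} {y : E n} : y ∈ tr x K ↔ y - x ∈ K := by
  unfold tr
  rw [← SetLike.mem_coe, ConvexBody.coe_add, Set.mem_add]
  constructor
  · rintro ⟨a, ha, b, hb, rfl⟩
    have : b = x := hb
    subst this
    simpa using ha
  · intro h
    exact ⟨y - x, h, x, rfl, by simp⟩

theorem vol_mono {S T : Set (E n)} (h : S ⊆ T) (hT : volume T ≠ ⊤) : vol S ≤ vol T :=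
  ENNReal.toReal_mono hT (measure_mono h)

theorem null_plane (φ : (E n) →L[ℝ] ℝ) (hφ : φ ≠ 0) (c : ℝ) :
    (volume : Measure (E n)) {x : (E n) | φ x = c} = 0 := by
  by_cases h : ∃ x0, φ x0 = c
  · obtain ⟨x0, hx0⟩ := h
    have h1 : {x : (E n) | φ x = c} =
        (fun x => x + (-x0)) ⁻¹' (LinearMap.ker (φ : (E n) →ₗ[ℝ] ℝ) : Set (E n)) := by
      ext x
      rw [mem_ofPred_eq, mem_preimage, SetLike.mem_coe, LinearMap.mem_ker]
      show φ x = c ↔ φ (x + -x0) = 0
      rw [map_add, map_neg, hx0, ← sub_eq_add_neg, sub_eq_zero]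
    rw [h1, measure_preimage_add_right]
    refine Measure.addHaar_submodule _ _ fun h2 => hφ ?_
    ext1 x
    have h3 : x ∈ LinearMap.ker (φ : (E n) →ₗ[ℝ] ℝ) := by rw [h2]; exact Submodule.mem_top
    exact LinearMap.mem_ker.1 h3
  · have h1 : {x : (E n) | φ x = c} = ∅ := by
      ext x
      simp only [mem_ofPred_eq, mem_empty_iff_false, iff_false]
      exact fun h2 => h ⟨x, h2⟩
    rw [h1, measure_empty]

/-- the distance function of an inequality -/
def sf (f : (E n →L[ℝ] ℝ) × ℝ) (x : (E n)) : ℝ := f.2 - f.1 x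

theorem sf_cont (f : (E n →L[ℝ] ℝ) × ℝ) : Continuous (sf f) := continuous_const.sub f.1.continuous

theorem sf_add (f : (E n →L[ℝ] ℝ) × ℝ) (x y : (E n)) : sf f (x + y) = sf f x - f.1 y := by
  unfold sf
  rw [map_add]
  ring

theorem mem_poly {F : Finset ((E n →L[ℝ] ℝ) × ℝ)} {x : (E n)} : x ∈ poly F ↔ ∀ f ∈ F, 0 ≤ sf f x := by
  unfold poly sf
  simp only [mem_ofPred_eq, sub_nonneg]

theorem poly_meas (F : Finset ((E n →L[ℝ] ℝ) × ℝ)) : MeasurableSet (poly F) := by
  have h : poly F = ⋂ f ∈ F, {x | 0 ≤ sf f x} := by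
    ext x
    rw [mem_poly]
    simp only [mem_iInter, mem_ofPred_eq]
  rw [h]
  exact Finset.measurableSet_biInter _ fun f _ =>
    (isClosed_le continuous_const (sf_cont f)).measurableSet

theorem core (F : Finset ((E n →L[ℝ] ℝ) × ℝ)) (L : Set (E n)) (m : (E n →L[ℝ] ℝ) × ℝ → ℝ)
    (z : (E n →L[ℝ] ℝ) × ℝ → (E n)) (h0 : (0 : (E n)) ∈ L) (hzL : ∀ f ∈ F, z f ∈ L)
    (hz : ∀ f ∈ F, f.1 (z f) = m f) (hle : ∀ f ∈ F, ∀ y ∈ L, f.1 y ≤ m f)
    (hnull : ∀ f ∈ F, ∀ g ∈ F, f ≠ g → 0 < m f → 0 < m g →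
      (volume : Measure (E n)) {x : (E n) | m g * sf f x = m f * sf g x} = 0)
    (hP : Bornology.IsBounded (poly F)) (hPL : Bornology.IsBounded (poly F + L)) :
    2 * vol (poly F) ≤ vol (ero (poly F) L) + vol (poly F + L) := by
  classical
  set G := F.filter fun f => 0 < m f with hG
  have hGF : ∀ f ∈ G, f ∈ F ∧ 0 < m f := fun f hf => Finset.mem_filter.1 hf
  set A : (E n →L[ℝ] ℝ) × ℝ → Set (E n) := fun f => poly F ∩ ({x | sf f x < m f} ∩
    ⋂ g ∈ G.erase f, {x | m g * sf f x < m f * sf g x}) with hA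
  have hAm : ∀ f, MeasurableSet (A f) := by
    intro f
    refine (poly_meas F).inter ((isOpen_lt (sf_cont f) continuous_const).measurableSet.inter ?_)
    exact Finset.measurableSet_biInter _ fun g _ =>
      (isOpen_lt (continuous_const.mul (sf_cont f))
        (continuous_const.mul (sf_cont g))).measurableSet
  set N : Set (E n) := ⋃ p ∈ (G ×ˢ G).filter (fun p => p.1 ≠ p.2),
    {x : (E n) | m p.2 * sf p.1 x = m p.1 * sf p.2 x} with hN
  have hN0 : (volume : Measure (E n)) N = 0 := by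
    rw [hN]
    refine (measure_biUnion_null_iff (Finset.countable_toSet _)).2 fun p hp => ?_
    rw [Finset.mem_coe, Finset.mem_filter, Finset.mem_product] at hp
    exact hnull p.1 (hGF _ hp.1.1).1 p.2 (hGF _ hp.1.2).1 hp.2 (hGF _ hp.1.1).2 (hGF _ hp.1.2).2
  -- the covering
  have hcov : poly F ⊆ ero (poly F) L ∪ ((⋃ f ∈ G, A f) ∪ N) := by
    intro x hx
    by_cases hxe : x ∈ ero (poly F) L
    · exact Or.inl hxe
    right
    have h1 : ∃ f ∈ F, sf f x < m f := by
      by_contra hc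
      push Not at hc
      apply hxe
      intro y hy
      rw [mem_poly]
      intro f hf
      rw [sf_add]
      linarith [hc f hf, hle f hf y hy]
    obtain ⟨f, hf, hfx⟩ := h1
    have hf0 : 0 < m f := lt_of_le_of_lt (mem_poly.1 hx f hf) hfx
    have hfG : f ∈ G := Finset.mem_filter.2 ⟨hf, hf0⟩
    obtain ⟨f0, hf0G, hmin⟩ := Finset.exists_min_image G (fun f => sf f x / m f) ⟨f, hfG⟩
    have hm0 := (hGF f0 hf0G).2
    have h2 : sf f0 x < m f0 := by
      have h3 : sf f0 x / m f0 < 1 := (hmin f hfG).trans_lt ((div_lt_one hf0).2 hfx)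
      exact (div_lt_one hm0).1 h3
    have h4 : ∀ g ∈ G, m g * sf f0 x ≤ m f0 * sf g x := by
      intro g hg
      have h5 := (div_le_div_iff₀ hm0 (hGF g hg).2).1 (hmin g hg)
      linarith
    by_cases hs : ∀ g ∈ G, g ≠ f0 → m g * sf f0 x < m f0 * sf g x
    · left
      refine mem_biUnion hf0G ⟨hx, h2, ?_⟩
      rw [mem_iInter₂]
      intro g hg
      exact hs g (Finset.mem_of_mem_erase hg) (Finset.ne_of_mem_erase hg)
    · right
      push Not at hs
      obtain ⟨g, hg, hne, hge⟩ := hs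
      rw [hN]
      refine mem_biUnion (x := (f0, g)) ?_ ?_
      · rw [Finset.mem_coe, Finset.mem_filter, Finset.mem_product]
        exact ⟨⟨hf0G, hg⟩, fun h => hne h.symm⟩
      · exact le_antisymm (h4 g hg) hge
  have hle1 : (volume : Measure (E n)) (poly F) ≤ volume (ero (poly F) L) +
      ∑ f ∈ G, volume (A f) := by
    calc (volume : Measure (E n)) (poly F) ≤ volume (ero (poly F) L ∪ ((⋃ f ∈ G, A f) ∪ N)) :=
          measure_mono hcov
      _ ≤ volume (ero (poly F) L) + (volume (⋃ f ∈ G, A f) + volume N) :=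
          (measure_union_le _ _).trans (add_le_add le_rfl (measure_union_le _ _))
      _ ≤ volume (ero (poly F) L) + ∑ f ∈ G, volume (A f) := by
          rw [hN0, add_zero]
          exact add_le_add le_rfl (measure_biUnion_finset_le _ _)
  -- the packing
  set B : (E n →L[ℝ] ℝ) × ℝ → Set (E n) := fun f => (fun x => x + (-z f)) ⁻¹' (A f) with hB
  have hBm : ∀ f, MeasurableSet (B f) := fun f => (measurable_add_const (-z f)) (hAm f)
  have hBv : ∀ f, (volume : Measure (E n)) (B f) = volume (A f) := fun f =>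
    measure_preimage_add_right volume (-z f) (A f)
  have hdisj : (G : Set ((E n →L[ℝ] ℝ) × ℝ)).PairwiseDisjoint B := by
    intro f hf g hg hfg
    rw [Function.onFun, Set.disjoint_left]
    intro x hxf hxg
    have hfm := (hGF f hf).2
    have hgm := (hGF g hg).2
    -- the inequality at `x`
    have key : ∀ f ∈ G, ∀ g ∈ G, f ≠ g → x ∈ B f → m g * sf f x < m f * sf g x := by
      intro f hf g hg hfg hx
      have h1 : x + (-z f) ∈ A f := hx
      have h2 := h1.2.2
      rw [mem_iInter₂] at h2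
      have h3 : m g * sf f (x + (-z f)) < m f * sf g (x + (-z f)) :=
        h2 g (Finset.mem_erase.2 ⟨fun h => hfg h.symm, hg⟩)
      rw [sf_add, sf_add, map_neg, map_neg, hz f (hGF f hf).1] at h3
      have h4 := hle g (hGF g hg).1 (z f) (hzL f (hGF f hf).1)
      have h5 := mul_le_mul_of_nonneg_left h4 (hGF f hf).2.le
      linarith
    exact lt_asymm (key f hf g hg hfg hxf) (key g hg f hf (Ne.symm hfg) hxg)
  have hdisj2 : Disjoint (poly F) (⋃ f ∈ G, B f) := by
    rw [Set.disjoint_left]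
    intro x hx hxB
    rw [mem_iUnion₂] at hxB
    obtain ⟨f, hf, hxf⟩ := hxB
    have h1 : x + (-z f) ∈ A f := hxf
    have h2 : sf f (x + (-z f)) < m f := h1.2.1
    rw [sf_add, map_neg, hz f (hGF f hf).1] at h2
    have h3 := mem_poly.1 hx f (hGF f hf).1
    linarith
  have hsub : poly F ∪ (⋃ f ∈ G, B f) ⊆ poly F + L := by
    rintro x (hx | hx)
    · exact ⟨x, hx, 0, h0, add_zero x⟩
    · rw [mem_iUnion₂] at hx
      obtain ⟨f, hf, hxf⟩ := hx
      have h1 : x + (-z f) ∈ A f := hxf
      refine ⟨x + (-z f), h1.1, z f, hzL f (hGF f hf).1, ?_⟩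
      show x + -z f + z f = x
      rw [neg_add_cancel_right]
  have hle2 : (volume : Measure (E n)) (poly F) + ∑ f ∈ G, volume (A f) ≤
      volume (poly F + L) := by
    calc (volume : Measure (E n)) (poly F) + ∑ f ∈ G, volume (A f) =
          volume (poly F) + volume (⋃ f ∈ G, B f) := by
          rw [measure_biUnion_finset hdisj fun f _ => hBm f]
          congr 1
          exact Finset.sum_congr rfl fun f _ => (hBv f).symm
      _ = volume (poly F ∪ (⋃ f ∈ G, B f)) :=
          (measure_union hdisj2 (Finset.measurableSet_biUnion _ fun f _ => hBm f)).symm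
      _ ≤ volume (poly F + L) := measure_mono hsub
  -- finiteness
  have hfP : (volume : Measure (E n)) (poly F) ≠ ⊤ := hP.measure_lt_top.ne
  have hfPL : (volume : Measure (E n)) (poly F + L) ≠ ⊤ := hPL.measure_lt_top.ne
  have hfe : (volume : Measure (E n)) (ero (poly F) L) ≠ ⊤ := by
    refine ((measure_mono ?_).trans_lt hP.measure_lt_top).ne
    intro x hx
    have := hx 0 h0
    rwa [add_zero] at this
  have hfin : (volume : Measure (E n)) (poly F) + volume (poly F) ≤
      volume (ero (poly F) L) + volume (poly F + L) := by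
    calc (volume : Measure (E n)) (poly F) + volume (poly F) ≤
          (volume (ero (poly F) L) + ∑ f ∈ G, volume (A f)) + volume (poly F) := by gcongr
      _ = volume (ero (poly F) L) + (volume (poly F) + ∑ f ∈ G, volume (A f)) := by ring
      _ ≤ _ := by gcongr
  have h6 := ENNReal.toReal_mono (ENNReal.add_ne_top.2 ⟨hfe, hfPL⟩) hfin
  rw [ENNReal.toReal_add hfP hfP, ENNReal.toReal_add hfe hfPL] at h6
  unfold vol
  linarith


theorem shp (F : Finset ((E n →L[ℝ] ℝ) × ℝ)) (L : ConvexBody (E n))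
    (hF : ∀ f ∈ F, (∃ y ∈ L, f.1 y = 1) ∧ ∀ y ∈ L, f.1 y ≤ 1)
    (hb : Bornology.IsBounded (poly F)) :
    2 * vol (poly F) ≤ vol (ero (poly F) (L : Set (E n))) + vol (poly F + (L : Set (E n))) := by
  classical
  obtain ⟨y0, hy0⟩ := L.nonempty
  have hy : ∀ f : (E n →L[ℝ] ℝ) × ℝ, ∃ y : (E n), f ∈ F → y ∈ L ∧ f.1 y = 1 := by
    intro f
    by_cases hf : f ∈ F
    · obtain ⟨y, hyL, hy1⟩ := (hF f hf).1
      exact ⟨y, fun _ => ⟨hyL, hy1⟩⟩
    · exact ⟨0, fun h => absurd h hf⟩
  choose yf hyf using hy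
  set L' : Set (E n) := {y | y + y0 ∈ L} with hL'
  have hcL : Bornology.IsBounded (L : Set (E n)) := L.isCompact.isBounded
  have hPL : Bornology.IsBounded (poly F + (L : Set (E n))) := hb.add hcL
  have e1 : poly F + L' = (fun x => x + y0) ⁻¹' (poly F + (L : Set (E n))) := by
    ext x
    rw [mem_preimage]
    constructor
    · rintro ⟨p, hp, l, hl, rfl⟩
      exact ⟨p, hp, l + y0, hl, (add_assoc _ _ _).symm⟩
    · rintro ⟨p, hp, l, hl, hpl⟩
      refine ⟨p, hp, l - y0, ?_, ?_⟩
      · show l - y0 + y0 ∈ L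
        rw [sub_add_cancel]
        exact hl
      · have hpl' : p + l = x + y0 := hpl
        show p + (l - y0) = x
        rw [← add_sub_assoc, hpl', add_sub_cancel_right]
  have e2 : ero (poly F) (L : Set (E n)) = (fun x => x + y0) ⁻¹' (ero (poly F) L') := by
    ext x
    rw [mem_preimage]
    constructor
    · intro hx y hy
      have h1 := hx (y + y0) hy
      rw [show x + y0 + y = x + (y + y0) by abel]
      exact h1
    · intro hx y hy
      have h1 := hx (y - y0) (by
        show y - y0 + y0 ∈ L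
        rw [sub_add_cancel]
        exact hy)
      rwa [show x + y0 + (y - y0) = x + y by abel] at h1
  have v1 : vol (poly F + L') = vol (poly F + (L : Set (E n))) := by
    unfold vol
    rw [e1, measure_preimage_add_right]
  have v2 : vol (ero (poly F) (L : Set (E n))) = vol (ero (poly F) L') := by
    unfold vol
    rw [e2, measure_preimage_add_right]
  have hPL' : Bornology.IsBounded (poly F + L') := by
    have h1 : poly F + L' ⊆ (fun x => x + (-y0)) '' (poly F + (L : Set (E n))) := by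
      intro x hx
      rw [e1] at hx
      exact ⟨x + y0, hx, add_neg_cancel_right _ _⟩
    refine Bornology.IsBounded.subset ?_ h1
    have h2 : (fun x => x + (-y0)) '' (poly F + (L : Set (E n))) =
        (poly F + (L : Set (E n))) + {-y0} := by
      rw [Set.add_singleton]
    rw [h2]
    exact hPL.add Bornology.isBounded_singleton
  rw [v2, ← v1]
  refine core F L' (fun f => 1 - f.1 y0) (fun f => yf f - y0) ?_ ?_ ?_ ?_ ?_ hb hPL'
  · show (0 : (E n)) + y0 ∈ L
    rw [zero_add]
    exact hy0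
  · intro f hf
    show yf f - y0 + y0 ∈ L
    rw [sub_add_cancel]
    exact (hyf f hf).1
  · intro f hf
    show f.1 (yf f - y0) = 1 - f.1 y0
    rw [map_sub, (hyf f hf).2]
  · intro f hf y hy
    have h1 := (hF f hf).2 (y + y0) hy
    rw [map_add] at h1
    show f.1 y ≤ 1 - f.1 y0
    linarith
  · intro f hf g hg hfg hmf hmg
    by_cases hφ : (1 - g.1 y0) • f.1 - (1 - f.1 y0) • g.1 = 0
    · -- the two functionals agree
      have h1 : ∀ x, (1 - g.1 y0) * f.1 x = (1 - f.1 y0) * g.1 x := by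
        intro x
        have := congrArg (fun ψ : (E n) →L[ℝ] ℝ => ψ x) hφ
        simp only [_root_.sub_apply, _root_.smul_apply, smul_eq_mul,
          _root_.zero_apply] at this
        linarith
      have h2 : 1 - g.1 y0 ≤ 1 - f.1 y0 := by
        have h3 := h1 (yf f)
        rw [(hyf f hf).2, mul_one] at h3
        have h4 := mul_le_mul_of_nonneg_left ((hF g hg).2 (yf f) (hyf f hf).1) hmf.le
        linarith
      have h3 : 1 - f.1 y0 ≤ 1 - g.1 y0 := by
        have h3 := h1 (yf g)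
        rw [(hyf g hg).2, mul_one] at h3
        have h4 := mul_le_mul_of_nonneg_left ((hF f hf).2 (yf g) (hyf g hg).1) hmg.le
        linarith
      have h4 : 1 - f.1 y0 = 1 - g.1 y0 := le_antisymm h3 h2
      have h5 : f.1 = g.1 := by
        ext1 x
        have h6 := h1 x
        rw [h4] at h6
        exact mul_left_cancel₀ hmg.ne' h6
      have h6 : f.2 ≠ g.2 := fun h => hfg (Prod.ext h5 h)
      have h7 : {x : (E n) | (1 - g.1 y0) * sf f x = (1 - f.1 y0) * sf g x} = ∅ := by
        ext x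
        simp only [mem_ofPred_eq, mem_empty_iff_false, iff_false]
        intro h8
        rw [h4] at h8
        have h9 := mul_left_cancel₀ hmg.ne' h8
        unfold sf at h9
        rw [h5] at h9
        apply h6
        linarith
      rw [h7, measure_empty]
    · have h1 : {x : (E n) | (1 - g.1 y0) * sf f x = (1 - f.1 y0) * sf g x} =
          {x : (E n) | ((1 - g.1 y0) • f.1 - (1 - f.1 y0) • g.1) x =
            (1 - g.1 y0) * f.2 - (1 - f.1 y0) * g.2} := by
        ext x
        simp only [mem_ofPred_eq, _root_.sub_apply, _root_.smul_apply,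
          smul_eq_mul]
        unfold sf
        constructor <;> intro h <;> linarith
      rw [h1]
      exact null_plane _ hφ _

/-- the body lies in the interior of its dilation -/
theorem sub_int (K : ConvexBody (E n)) (h0 : (0 : (E n)) ∈ interior (K : Set (E n))) (ε : ℝ) (hε : 0 < ε) :
    (K : Set (E n)) ⊆ interior ((1 + ε) • (K : Set (E n))) := by
  have h1 := K.convex.subset_interior_image_homothety_of_one_lt h0 (1 + ε) (by linarith)
  have h2 : AffineMap.homothety (0 : (E n)) (1 + ε) '' (K : Set (E n)) = (1 + ε) • (K : Set (E n)) := by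
    rw [← Set.image_smul]
    refine Set.image_congr fun x _ => ?_
    rw [AffineMap.homothety_apply, vsub_eq_sub, sub_zero, vadd_eq_add, add_zero]
  rwa [h2] at h1

/-- a finite number of separating functionals -/
theorem cover (K : ConvexBody (E n)) (S : Set (E n)) (hS : IsCompact S) (hd : ∀ x ∈ S, x ∉ (K : Set (E n)))
    (h0 : (0 : (E n)) ∈ (K : Set (E n))) :
    ∃ F : Finset ((E n →L[ℝ] ℝ) × ℝ), (∀ f ∈ F, f.1 ≠ 0) ∧ (K : Set (E n)) ⊆ poly F ∧
      ∀ x ∈ S, x ∉ poly F := by
  classical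
  have h1 : ∀ x : (E n), ∃ g : (E n →L[ℝ] ℝ) × ℝ, x ∈ S → (∀ a ∈ (K : Set (E n)), g.1 a < g.2) ∧
      g.2 < g.1 x := by
    intro x
    by_cases hx : x ∈ S
    · obtain ⟨f, u, h2, h3⟩ := geometric_hahn_banach_closed_point K.convex K.isCompact.isClosed
        (hd x hx)
      exact ⟨(f, u), fun _ => ⟨h2, h3⟩⟩
    · exact ⟨(0, 0), fun h => absurd h hx⟩
  choose g hg using h1
  obtain ⟨t, ht, hcov⟩ := hS.elim_nhds_subcover (fun x => {z | (g x).2 < (g x).1 z}) (by
    intro x hx
    exact (isOpen_lt continuous_const (g x).1.continuous).mem_nhds (hg x hx).2)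
  refine ⟨t.image g, ?_, ?_, ?_⟩
  · intro f hf h
    obtain ⟨x, hx, rfl⟩ := Finset.mem_image.1 hf
    obtain ⟨h2, h3⟩ := hg x (ht x hx)
    have h4 := h2 0 h0
    rw [h] at h3 h4
    have h5 : (0 : (E n) →L[ℝ] ℝ) x = 0 := rfl
    have h6 : (0 : (E n) →L[ℝ] ℝ) 0 = 0 := rfl
    rw [h5] at h3
    rw [h6] at h4
    linarith
  · intro a ha f hf
    obtain ⟨x, hx, rfl⟩ := Finset.mem_image.1 hf
    exact ((hg x (ht x hx)).1 a ha).le
  · intro x hx hP
    obtain ⟨y, hy, hxy⟩ := Set.mem_iUnion₂.1 (hcov hx)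
    have h2 := hP (g y) (Finset.mem_image_of_mem g hy)
    exact absurd h2 (not_le.2 hxy)

theorem poly_convex (F : Finset ((E n →L[ℝ] ℝ) × ℝ)) : Convex ℝ (poly F) := by
  intro x hx y hy a b ha hb hab f hf
  have h1 := hx f hf
  have h2 := hy f hf
  rw [map_add, map_smul, map_smul, smul_eq_mul, smul_eq_mul]
  calc a * f.1 x + b * f.1 y ≤ a * f.2 + b * f.2 :=
        add_le_add (mul_le_mul_of_nonneg_left h1 ha) (mul_le_mul_of_nonneg_left h2 hb)
    _ = f.2 := by rw [← add_mul, hab, one_mul]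


theorem out (K : ConvexBody (E n)) (h0 : (0 : E n) ∈ interior (K : Set (E n))) (ε : ℝ)
    (hε : 0 < ε) : ∃ F : Finset ((E n →L[ℝ] ℝ) × ℝ), (∀ f ∈ F, f.1 ≠ 0) ∧
      (K : Set (E n)) ⊆ poly F ∧ poly F ⊆ (1 + ε) • (K : Set (E n)) := by
  have h0K : (0 : (E n)) ∈ (K : Set (E n)) := interior_subset h0
  have hsub := sub_int K h0 ε hε
  have hC : IsCompact ((1 + ε) • (K : Set (E n))) := K.isCompact.smul (1 + ε)
  have hfr : IsCompact (frontier ((1 + ε) • (K : Set (E n)))) :=
    hC.of_isClosed_subset isClosed_frontier hC.isClosed.frontier_subset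
  obtain ⟨F, h1, h2, h3⟩ := cover K _ hfr (by
    intro x hx hK
    exact hx.2 (hsub hK)) h0K
  refine ⟨F, h1, h2, ?_⟩
  intro y hy
  by_contra hyC
  have hpre : IsPreconnected (segment ℝ (0 : (E n)) y) := (convex_segment (𝕜 := ℝ) (0 : (E n)) y).isPreconnected
  have hseg : segment ℝ (0 : (E n)) y ⊆ poly F := (poly_convex F).segment_subset (h2 h0K) hy
  obtain ⟨z, hz, hz1, hz2⟩ := hpre (interior ((1 + ε) • (K : Set (E n))))
    ((1 + ε) • (K : Set (E n)))ᶜ isOpen_interior hC.isClosed.isOpen_compl (by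
      intro z hz
      by_cases hzC : z ∈ (1 + ε) • (K : Set (E n))
      · left
        by_contra hzi
        exact h3 z ⟨subset_closure hzC, hzi⟩ (hseg hz)
      · exact Or.inr hzC) ⟨0, left_mem_segment ℝ 0 y, hsub h0K⟩ ⟨y, right_mem_segment ℝ 0 y, hyC⟩
  exact hz2 (interior_subset hz1)

/-- A nonzero functional has a positive maximum on `L`. -/
theorem exists_max (L : ConvexBody (E n)) (hL : (0 : (E n)) ∈ interior (L : Set (E n)))
    (u : (E n) →L[ℝ] ℝ) (hu : u ≠ 0) :
    ∃ y ∈ L, 0 < u y ∧ ∀ z ∈ L, u z ≤ u y := by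
  obtain ⟨y, hy, hmax⟩ := L.isCompact.exists_isMaxOn L.nonempty u.continuous.continuousOn
  refine ⟨y, hy, ?_, fun z hz => hmax hz⟩
  obtain ⟨v, hv⟩ : ∃ v, 0 < u v := by
    obtain ⟨v, hv⟩ : ∃ v, u v ≠ 0 := by
      by_contra hcon
      push Not at hcon
      exact hu (ContinuousLinearMap.ext hcon)
    rcases lt_or_gt_of_ne hv with h | h
    · exact ⟨-v, by rw [map_neg]; linarith⟩
    · exact ⟨v, h⟩
  have h1 : Tendsto (fun t : ℝ => t • v) (𝓝[>] 0) (𝓝 ((0 : ℝ) • v)) :=
    ((continuous_id.smul continuous_const).tendsto 0).mono_left nhdsWithin_le_nhds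
  rw [zero_smul] at h1
  have h2 : ∀ᶠ t : ℝ in 𝓝[>] 0, t • v ∈ (L : Set (E n)) :=
    h1.eventually (mem_interior_iff_mem_nhds.1 hL)
  obtain ⟨t, ht, ht0⟩ := (h2.and self_mem_nhdsWithin).exists
  have h3 : u (t • v) ≤ u y := hmax ht
  rw [map_smul, smul_eq_mul] at h3
  exact lt_of_lt_of_le (mul_pos ht0 hv) h3

/-- the case of a body with the origin in the interior, up to `ε` -/
theorem approx (K L : ConvexBody (E n))
    (hK : (0 : (E n)) ∈ interior (K : Set (E n))) (hL : (0 : (E n)) ∈ interior (L : Set (E n))) (ε : ℝ)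
    (hε : 0 < ε) : 2 * (((1 + ε)⁻¹) ^ n * vol (K : Set (E n))) ≤
      vol (ero (K : Set (E n)) (L : Set (E n))) + vol ((K + L : ConvexBody (E n)) : Set (E n)) := by
  classical
  obtain ⟨F, hF0, hKF, hFK⟩ := out K hK ε hε
  have h1ε : (0 : ℝ) < 1 + ε := by linarith
  choose! y hyL hypos hymax using exists_max L hL
  obtain ⟨F', hF'⟩ : ∃ F' : Finset ((E n →L[ℝ] ℝ) × ℝ), F' = F.image (fun f =>
      ((f.1 (y f.1))⁻¹ • f.1, ((1 + ε) * f.1 (y f.1))⁻¹ * f.2)) := ⟨_, rfl⟩
  have hmem : ∀ x : (E n), x ∈ poly F' ↔ (1 + ε) • x ∈ poly F := by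
    intro x
    unfold poly
    rw [mem_ofPred_eq, mem_ofPred_eq, hF']
    simp only [Finset.mem_image, forall_exists_index, and_imp, forall_apply_eq_imp_iff₂]
    refine forall_congr' fun f => forall_congr' fun hf => ?_
    have hm := hypos f.1 (hF0 f hf)
    rw [map_smul, smul_eq_mul]
    change (f.1 (y f.1))⁻¹ * f.1 x ≤ _ ↔ _
    rw [mul_inv, mul_assoc, mul_comm (1 + ε)⁻¹, mul_assoc, mul_le_mul_iff_right₀ (inv_pos.2 hm),
      mul_comm f.2, ← div_eq_inv_mul, le_div_iff₀' h1ε]
  have hsub : poly F' ⊆ (K : Set (E n)) := by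
    intro x hx
    have h2 := hFK ((hmem x).1 hx)
    rwa [Set.smul_mem_smul_set_iff₀ h1ε.ne'] at h2
  have hbdd : Bornology.IsBounded (poly F') := K.isCompact.isBounded.subset hsub
  have key := shp F' L (by
    intro f' hf'
    rw [hF', Finset.mem_image] at hf'
    obtain ⟨f, hf, rfl⟩ := hf'
    have hm := hypos f.1 (hF0 f hf)
    refine ⟨⟨y f.1, hyL f.1 (hF0 f hf), ?_⟩, fun z hz => ?_⟩
    · change (f.1 (y f.1))⁻¹ * f.1 (y f.1) = 1
      exact inv_mul_cancel₀ hm.ne'
    · change (f.1 (y f.1))⁻¹ * f.1 z ≤ 1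
      rw [inv_mul_le_iff₀ hm, mul_one]
      exact hymax f.1 (hF0 f hf) z hz) hbdd
  -- the volume of the polytope
  have hlow : ((1 + ε)⁻¹) ^ n * vol (K : Set (E n)) ≤ vol (poly F') := by
    have h2 : ((1 + ε)⁻¹) • (K : Set (E n)) ⊆ poly F' := by
      intro x hx
      rw [Set.mem_inv_smul_set_iff₀ h1ε.ne'] at hx
      exact (hmem x).2 (hKF hx)
    have h3 : vol ((1 + ε)⁻¹ • (K : Set (E n))) = ((1 + ε)⁻¹) ^ n * vol (K : Set (E n)) := by
      unfold vol
      rw [Measure.addHaar_smul, finrank_euclideanSpace_fin, ENNReal.toReal_mul, ENNReal.toReal_ofReal (abs_nonneg _),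
        abs_of_nonneg (by positivity)]
    rw [← h3]
    exact vol_mono h2 hbdd.measure_lt_top.ne
  have hero : vol (ero (poly F') (L : Set (E n))) ≤ vol (ero (K : Set (E n)) (L : Set (E n))) := by
    refine vol_mono (fun x hx z hz => hsub (hx z hz)) ?_
    refine ne_top_of_le_ne_top K.isCompact.measure_lt_top.ne (measure_mono (t := (K : Set (E n))) ?_)
    intro x hx
    have := hx 0 (interior_subset hL)
    rwa [add_zero] at this
  have hadd : vol (poly F' + (L : Set (E n))) ≤ vol ((K + L : ConvexBody (E n)) : Set (E n)) := by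
    refine vol_mono ?_ (K + L : ConvexBody (E n)).isCompact.measure_lt_top.ne
    rw [ConvexBody.coe_add]
    exact Set.add_subset_add_right hsub
  linarith

/-- the case of a body with the origin in the interior -/
theorem centred (K L : ConvexBody (E n))
    (hK : (0 : (E n)) ∈ interior (K : Set (E n))) (hL : (0 : (E n)) ∈ interior (L : Set (E n))) :
    2 * vol (K : Set (E n)) ≤ vol (ero (K : Set (E n)) (L : Set (E n))) + vol ((K + L : ConvexBody (E n)) : Set (E n)) := by
  have h1 : Tendsto (fun ε : ℝ => 2 * (((1 + ε)⁻¹) ^ n * vol (K : Set (E n)))) (𝓝[>] 0)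
      (𝓝 (2 * (((1 + (0 : ℝ))⁻¹) ^ n * vol (K : Set (E n))))) := by
    have h2 : ContinuousAt (fun ε : ℝ => 2 * (((1 + ε)⁻¹) ^ n * vol (K : Set (E n)))) 0 := by
      have h3 : ContinuousAt (fun ε : ℝ => (1 + ε)⁻¹) 0 :=
        (continuousAt_const.add continuousAt_id).inv₀ (by simp)
      exact continuousAt_const.mul ((h3.pow n).mul continuousAt_const)
    exact h2.tendsto.mono_left nhdsWithin_le_nhds
  have h4 : 2 * (((1 + (0 : ℝ))⁻¹) ^ n * vol (K : Set (E n))) = 2 * vol (K : Set (E n)) := by norm_num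
  rw [h4] at h1
  refine le_of_tendsto h1 ?_
  filter_upwards [self_mem_nhdsWithin] with ε hε
  exact approx K L hK hL ε hε

/-- the volume of a translate -/
theorem vol_pre (a : (E n)) (S : Set (E n)) : vol ((fun y => y + a) ⁻¹' S) = vol S := by
  unfold vol
  rw [measure_preimage_add_right]

end SHELLN

open SHELLN in
/-- **SHELLN** -/
theorem shelln : S_SHELLN := by
  intro n K L hK hL
  obtain ⟨a, ha⟩ := hK
  have h1 : ∀ M : ConvexBody (E n), ((tr (-a) M : ConvexBody (E n)) : Set (E n)) =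
      (fun y => y + a) ⁻¹' (M : Set (E n)) := by
    intro M
    ext x
    rw [SetLike.mem_coe, mem_tr, sub_neg_eq_add]
    rfl
  have h2 : (0 : (E n)) ∈ interior ((tr (-a) K : ConvexBody (E n)) : Set (E n)) := by
    rw [h1]
    have h3 := (Homeomorph.addRight a).preimage_interior (K : Set (E n))
    have h4 : (0 : (E n)) ∈ (Homeomorph.addRight a) ⁻¹' interior (K : Set (E n)) := by
      change 0 + a ∈ interior (K : Set (E n))
      rwa [zero_add]
    rw [h3] at h4
    exact h4
  have h5 := SHELLN.centred (tr (-a) K) L h2 hL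
  have h6 : tr (-a) K + L = tr (-a) (K + L) := by
    unfold tr
    rw [add_right_comm]
  have h7 : ero ((tr (-a) K : ConvexBody (E n)) : Set (E n)) (L : Set (E n)) =
      (fun y => y + a) ⁻¹' (ero (K : Set (E n)) (L : Set (E n))) := by
    ext x
    unfold ero
    rw [mem_preimage, mem_ofPred_eq, mem_ofPred_eq]
    refine forall_congr' fun z => forall_congr' fun _ => ?_
    rw [h1, mem_preimage, add_right_comm]
  rw [h6, h7, h1, h1, SHELLN.vol_pre, SHELLN.vol_pre, SHELLN.vol_pre] at h5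
  exact h5


end Pool.Agent.H619.BB

end
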