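import Pool.Agent.H619.BB.St

set_option autoImplicit false
set_option linter.unusedSectionVars false

open MeasureTheory Set Module
open scoped Pointwise NNReal ENNReal

noncomputable section

namespace Pool.Agent.H619.BB

namespace SPX

/-- volume of a scaled and translated set -/
theorem vol_img {n : ℕ} (s : ℝ) (hs : 0 ≤ s) (w : E n) (S : Set (E n)) :
    vol ((fun x : E n => s • x + w) '' S) = s ^ n * vol S := by
  have h1 : (fun x : E n => s • x + w) '' S = (fun x : E n => x + w) '' (s • S) := by
    rw [← image_smul, image_image]
  rw [h1]
  unfold vol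
  rw [Set.image_add_right, measure_preimage_add_right, Measure.addHaar_smul,
    ENNReal.toReal_mul, finrank_euclideanSpace_fin, abs_of_nonneg (pow_nonneg hs n),
    ENNReal.toReal_ofReal (pow_nonneg hs n)]

/-- the affine basis of the vertices -/
theorem exists_basis {n : ℕ} (v : Fin (n + 1) → E n) (hv : AffineIndependent ℝ v) :
    ∃ b : AffineBasis (Fin (n + 1)) ℝ (E n), ⇑b = v := by
  have h : affineSpan ℝ (range v) = ⊤ := by
    rw [hv.affineSpan_eq_top_iff_card_eq_finrank_add_one]
    simp
  exact ⟨⟨v, hv, h⟩, rfl⟩

theorem coord_comb {n : ℕ} (b : AffineBasis (Fin (n + 1)) ℝ (E n)) (a : Fin (n + 1) → ℝ)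
    (ha : ∑ i, a i = 1) (i : Fin (n + 1)) : b.coord i (∑ j, a j • b j) = a i := by
  have h := b.coord_apply_combination_of_mem (Finset.mem_univ i) ha
  rw [Finset.affineCombination_eq_linear_combination _ _ _ ha] at h
  exact h

theorem coord_add {n : ℕ} (b : AffineBasis (Fin (n + 1)) ℝ (E n)) (i : Fin (n + 1))
    (x y : E n) : b.coord i (x + y) = b.coord i x + (b.coord i).linear y := by
  have h := (b.coord i).map_vadd x y
  rw [vadd_eq_add, vadd_eq_add, add_comm y x] at h
  rw [h, add_comm]

end SPX

open SPX in
theorem spx (ext : S_EXT) (top : S_TOPN) : S_SPX := by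
  intro n v B hn hv hB
  obtain ⟨b, hb⟩ := exists_basis v hv
  subst hb
  set T : Set (E n) := convexHull ℝ (range ⇑b) with hT
  set c₀ : E n := (2 / ((n : ℝ) + 1)) • ∑ i, b i with hc₀
  have hTeq : T = {x | ∀ i, 0 ≤ b.coord i x} := b.convexHull_eq_nonneg_coord
  have hTc : IsCompact T := (Set.finite_range b).isCompact_convexHull ℝ
  have hTi : (interior T).Nonempty := by
    rw [hT, interior_convexHull_nonempty_iff_affineSpan_eq_top]
    exact b.tot
  have hBody : Body T := ⟨hTc, convex_convexHull ℝ _, hTi⟩
  have hfin : volume T ≠ ∞ := hTc.measure_lt_top.ne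
  have hpos : 0 < vol T := by
    unfold vol
    refine ENNReal.toReal_pos ?_ hfin
    exact (Measure.measure_pos_of_nonempty_interior volume hTi).ne'
  obtain ⟨⟨hBc, hBconv, hBi⟩, hBs, -⟩ := id hB
  have hBne : B.Nonempty := hBi.mono interior_subset
  -- support numbers
  have hm : ∀ i, ∃ y ∈ B, ∀ z ∈ B, -(b.coord i).linear z ≤ -(b.coord i).linear y := by
    intro i
    have hcont : Continuous fun z : E n => -(b.coord i).linear z :=
      ((b.coord i).linear.continuous_of_finiteDimensional).neg
    exact hBc.exists_isMaxOn hBne hcont.continuousOn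
  choose y hyB hymax using hm
  set r : ℝ := vol (sy c₀ T) / vol T with hr
  have hrT : r * vol T = vol (sy c₀ T) := by
    rw [hr, div_mul_cancel₀ _ hpos.ne']
  have key := ext n T B r hn hBody hB
    (by
      intro c
      rw [hrT]
      exact top n b hv c)
    (by
      intro ε hε hpe
      set m : Fin (n + 1) → ℝ := fun i => -(b.coord i).linear (y i) with hmdef
      have hero : ero T (ε • B) = {x | ∀ i, ε * m i ≤ b.coord i x} := by
        ext x
        constructor
        · intro hx i
          have h1 := hx (ε • y i) (smul_mem_smul_set (hyB i))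
          rw [hTeq] at h1
          have h2 := h1 i
          rw [coord_add, map_smul, smul_eq_mul] at h2
          show ε * -(b.coord i).linear (y i) ≤ _
          linarith
        · intro hx z hz
          obtain ⟨z', hz', rfl⟩ := hz
          rw [hTeq]
          intro i
          show 0 ≤ b.coord i (x + ε • z')
          rw [coord_add, map_smul, smul_eq_mul]
          have h1 := hx i
          have h2 := mul_le_mul_of_nonneg_left (hymax i z' hz') hε.le
          have h3 : ε * m i = ε * -(b.coord i).linear (y i) := rfl
          rw [h3] at h1
          linarith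
      set μ : ℝ := ∑ i, ε * m i with hμ
      rcases le_or_gt 1 μ with h1 | h1
      · exfalso
        have hsub : (ero T (ε • B)).Subsingleton := by
          intro x hx z hz
          rw [hero] at hx hz
          have hval : ∀ x : E n, (∀ i, ε * m i ≤ b.coord i x) → ∀ i, b.coord i x = ε * m i := by
            intro x hx i
            have hs : ∑ i, b.coord i x = 1 := b.sum_coord_apply_eq_one x
            have h4 : ∑ i, (b.coord i x - ε * m i) = 1 - μ := by
              rw [Finset.sum_sub_distrib, hs]
            have h5 : ∀ i ∈ Finset.univ, 0 ≤ b.coord i x - ε * m i := fun i _ =>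
              sub_nonneg.2 (hx i)
            have h6 : ∑ i, (b.coord i x - ε * m i) = 0 :=
              le_antisymm (by rw [h4]; linarith) (Finset.sum_nonneg h5)
            have h7 := (Finset.sum_eq_zero_iff_of_nonneg h5).1 h6 i (Finset.mem_univ i)
            linarith
          rw [← b.linear_combination_coord_eq_self x, ← b.linear_combination_coord_eq_self z]
          refine Finset.sum_congr rfl fun i _ => ?_
          rw [hval x hx i, hval z hz i]
        have : Nontrivial (E n) := by
          apply Module.nontrivial_of_finrank_pos (R := ℝ)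
          rw [finrank_euclideanSpace_fin]
          omega
        have h0 : volume (ero T (ε • B)) = 0 := hsub.measure_zero volume
        unfold vol at hpe
        rw [h0] at hpe
        simp at hpe
      · have hμ1 : 0 < 1 - μ := sub_pos.2 h1
        set w : E n := ∑ i, (ε * m i) • b i with hw
        have hcg : ∀ (x : E n) (i : Fin (n + 1)),
            b.coord i ((1 - μ) • x + w) = (1 - μ) * b.coord i x + ε * m i := by
          intro x i
          have h2 : (1 - μ) • x + w = ∑ j, ((1 - μ) * b.coord j x + ε * m j) • b j := by
            have h3 : (1 - μ) • x = ∑ j, ((1 - μ) * b.coord j x) • b j := by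
              conv_lhs => rw [← b.linear_combination_coord_eq_self x, Finset.smul_sum]
              refine Finset.sum_congr rfl fun j _ => ?_
              rw [smul_smul]
            rw [h3, hw, ← Finset.sum_add_distrib]
            refine Finset.sum_congr rfl fun j _ => ?_
            rw [add_smul]
          rw [h2]
          refine coord_comb b _ ?_ i
          rw [Finset.sum_add_distrib, ← Finset.mul_sum, b.sum_coord_apply_eq_one]
          rw [hμ]
          ring
        have himg : ero T (ε • B) = (fun x : E n => (1 - μ) • x + w) '' T := by
          rw [hero]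
          ext x
          constructor
          · intro hx
            refine ⟨(1 - μ)⁻¹ • (x - w), ?_, ?_⟩
            · rw [hTeq]
              intro i
              have h2 := hcg ((1 - μ)⁻¹ • (x - w)) i
              rw [smul_smul, mul_inv_cancel₀ hμ1.ne', one_smul, sub_add_cancel] at h2
              have h3 := hx i
              have h4 : 0 ≤ (1 - μ) * b.coord i ((1 - μ)⁻¹ • (x - w)) := by linarith
              exact nonneg_of_mul_nonneg_right h4 hμ1
            · show (1 - μ) • (1 - μ)⁻¹ • (x - w) + w = x
              rw [smul_smul, mul_inv_cancel₀ hμ1.ne', one_smul, sub_add_cancel]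
          · rintro ⟨z, hz, rfl⟩
            intro i
            show _ ≤ b.coord i ((1 - μ) • z + w)
            rw [hcg]
            rw [hTeq] at hz
            have h2 := mul_nonneg hμ1.le (hz i)
            linarith
        have hsy : sy ((1 - μ) • c₀ + (2 : ℝ) • w) ((fun x : E n => (1 - μ) • x + w) '' T) =
            (fun x : E n => (1 - μ) • x + w) '' (sy c₀ T) := by
          ext x
          constructor
          · rintro ⟨⟨z, hz, rfl⟩, ⟨z', hz', hzz⟩⟩
            refine ⟨z, ⟨hz, ?_⟩, rfl⟩
            have h2 : (1 - μ) • z' = (1 - μ) • (c₀ - z) := by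
              have h3 : (1 - μ) • z' + w =
                  (1 - μ) • c₀ + (2 : ℝ) • w - ((1 - μ) • z + w) := hzz
              rw [smul_sub]
              rw [two_smul] at h3
              have h4 := congrArg (fun u : E n => u - w) h3
              simp only [add_sub_cancel_right] at h4
              rw [h4]
              abel
            have h5 : z' = c₀ - z := smul_right_injective (E n) hμ1.ne' h2
            rw [← h5]
            exact hz'
          · rintro ⟨z, ⟨hz1, hz2⟩, rfl⟩
            refine ⟨⟨z, hz1, rfl⟩, ⟨c₀ - z, hz2, ?_⟩⟩
            show (1 - μ) • (c₀ - z) + w =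
                  (1 - μ) • c₀ + (2 : ℝ) • w - ((1 - μ) • z + w)
            rw [smul_sub, two_smul]
            abel
        refine ⟨(1 - μ) • c₀ + (2 : ℝ) • w, ?_⟩
        rw [himg, hsy, vol_img _ hμ1.le, vol_img _ hμ1.le, ← hrT]
        apply le_of_eq
        ring)
  calc vol T ^ n = vol T ^ (n - 1) * vol T := by
        rw [← pow_succ, Nat.sub_add_cancel hn]
    _ ≤ r * vol B ^ (n - 1) * vol T := mul_le_mul_of_nonneg_right key hpos.le
    _ = vol (sy c₀ T) * vol B ^ (n - 1) := by
        rw [← hrT]
        ring

end Pool.Agent.H619.BB

end
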