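import Pool.Agent.H619.BB.St

/-!
# TOPN: the largest symmetric part of a simplex is centred at the centroid
-/

set_option autoImplicit false

open MeasureTheory Set Module
open scoped Pointwise NNReal ENNReal

noncomputable section

namespace Pool.Agent.H619.BB

namespace TOPN

variable {n : ℕ}

theorem vol_nonneg (A : Set (E n)) : 0 ≤ vol A := ENNReal.toReal_nonneg

theorem vol_mono {A B : Set (E n)} (h : A ⊆ B) (hB : volume B ≠ ⊤) : vol A ≤ vol B :=
  ENNReal.toReal_mono hB (measure_mono h)

theorem vol_smul {r : ℝ} (hr : 0 ≤ r) (A : Set (E n)) : vol (r • A) = r ^ n * vol A := by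
  unfold vol
  rw [Measure.addHaar_smul, finrank_euclideanSpace_fin, ENNReal.toReal_mul,
    ENNReal.toReal_ofReal (abs_nonneg _), abs_of_nonneg (pow_nonneg hr _)]

theorem convex_sy {S : Set (E n)} (hS : Convex ℝ S) (c : E n) : Convex ℝ (sy c S) := by
  intro x hx y hy a b ha hb hab
  refine ⟨hS hx.1 hy.1 ha hb hab, ?_⟩
  have h2 := hS hx.2 hy.2 ha hb hab
  have h3 : a • (c - x) + b • (c - y) = c - (a • x + b • y) := by
    have h4 : c = (a + b) • c := by rw [hab, one_smul]
    conv_rhs => rw [h4]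
    module
  rw [h3] at h2
  exact h2

theorem compact_sy {S : Set (E n)} (hc : IsCompact S) (c : E n) : IsCompact (sy c S) := by
  have h1 : sy c S = S ∩ (fun x => c - x) ⁻¹' S := rfl
  rw [h1]
  exact hc.inter_right (hc.isClosed.preimage (by fun_prop))

theorem vol_ne_top {S : Set (E n)} (hc : IsCompact S) (c : E n) : volume (sy c S) ≠ ⊤ :=
  ((measure_mono fun _ hx => hx.1).trans_lt hc.measure_lt_top).ne

/-- the set of centres with large symmetric part is convex -/
theorem conv (hn : n ≠ 0) {S : Set (E n)} (hS : Convex ℝ S) (hc : IsCompact S) {τ : ℝ} (hτ : 0 < τ) :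
    Convex ℝ {x : E n | τ ≤ vol (sy ((2 : ℝ) • x) S)} := by
  intro x hx y hy s t hs ht hst
  have hne : ∀ z : E n, τ ≤ vol (sy ((2 : ℝ) • z) S) → (sy ((2 : ℝ) • z) S).Nonempty := by
    intro z hz
    by_contra h
    rw [not_nonempty_iff_eq_empty] at h
    rw [h] at hz
    unfold vol at hz
    rw [measure_empty, ENNReal.toReal_zero] at hz
    linarith
  have hx' : τ ≤ vol (sy ((2 : ℝ) • x) S) := hx
  have hy' : τ ≤ vol (sy ((2 : ℝ) • y) S) := hy
  let A : ConvexBody (E n) := ⟨s • sy ((2 : ℝ) • x) S, (convex_sy hS _).smul s,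
    (compact_sy hc _).smul s, (hne x hx').smul_set⟩
  let B : ConvexBody (E n) := ⟨t • sy ((2 : ℝ) • y) S, (convex_sy hS _).smul t,
    (compact_sy hc _).smul t, (hne y hy').smul_set⟩
  have hA : (A : Set (E n)) = s • sy ((2 : ℝ) • x) S := rfl
  have hB : (B : Set (E n)) = t • sy ((2 : ℝ) • y) S := rfl
  set m : ℝ := τ ^ ((1 : ℝ) / n) with hm
  have hm0 : 0 ≤ m := Real.rpow_nonneg hτ.le _
  have hmn : m ^ n = τ := by
    rw [hm, ← Real.rpow_natCast, ← Real.rpow_mul hτ.le]
    have : (1 : ℝ) / n * n = 1 := by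
      field_simp
    rw [this, Real.rpow_one]
  have hbm := Pool.Agent.H590.M3.bm_real (volume : Measure (E n)) A B
    (mul_nonneg hs hm0) (mul_nonneg ht hm0)
    (by
      show _ ≤ vol (A : Set (E n))
      rw [hA, vol_smul hs, finrank_euclideanSpace_fin, mul_pow, hmn]
      exact mul_le_mul_of_nonneg_left hx' (pow_nonneg hs _))
    (by
      show _ ≤ vol (B : Set (E n))
      rw [hB, vol_smul ht, finrank_euclideanSpace_fin, mul_pow, hmn]
      exact mul_le_mul_of_nonneg_left hy' (pow_nonneg ht _))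
  have h1 : (s * m + t * m) ^ finrank ℝ (E n) ≤ vol ((A + B : ConvexBody (E n)) : Set (E n)) := hbm
  rw [ConvexBody.coe_add, hA, hB, ← add_mul, hst, one_mul, finrank_euclideanSpace_fin, hmn] at h1
  refine h1.trans (vol_mono ?_ (vol_ne_top hc _))
  rintro _ ⟨_, ⟨u, hu, rfl⟩, _, ⟨v, hv, rfl⟩, rfl⟩
  refine ⟨hS hu.1 hv.1 hs ht hst, ?_⟩
  have h2 := hS hu.2 hv.2 hs ht hst
  have h3 : s • ((2 : ℝ) • x - u) + t • ((2 : ℝ) • y - v) =
      (2 : ℝ) • (s • x + t • y) - (s • u + t • v) := by module
  rw [h3] at h2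
  exact h2

variable (b : AffineBasis (Fin (n + 1)) ℝ (E n)) (π : Equiv.Perm (Fin (n + 1)))

/-- the linear part of the permutation of the vertices -/
def L : E n →ₗ[ℝ] E n := ∑ i, ((b.coord (π i)).linear).smulRight (b i)

/-- the permutation of the vertices -/
def P (x : E n) : E n := ∑ i, b.coord (π i) x • b i

theorem coord_eq (k : Fin (n + 1)) (x : E n) :
    b.coord k x = (b.coord k).linear x + b.coord k 0 := by
  have h := (b.coord k).linearMap_vsub x 0
  rw [vsub_eq_sub, vsub_eq_sub, sub_zero] at h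
  rw [h]
  ring

theorem P_eq (x : E n) : P b π x = L b π x + P b π 0 := by
  unfold P L
  rw [LinearMap.sum_apply, ← Finset.sum_add_distrib]
  refine Finset.sum_congr rfl fun i _ => ?_
  rw [LinearMap.smulRight_apply, ← add_smul, ← coord_eq]

theorem sum_perm (x : E n) : ∑ i, b.coord (π i) x = 1 := by
  rw [Equiv.sum_comp π (fun i => b.coord i x)]
  exact b.sum_coord_apply_eq_one x

theorem coord_comb (w : Fin (n + 1) → ℝ) (hw : ∑ i, w i = 1) (k : Fin (n + 1)) :
    b.coord k (∑ i, w i • b i) = w k := by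
  have h := b.coord_apply_combination_of_mem (i := k) (s := Finset.univ) (Finset.mem_univ k)
    (w := w) hw
  rw [Finset.affineCombination_eq_linear_combination _ _ _ hw] at h
  exact h

theorem coord_P (k : Fin (n + 1)) (x : E n) : b.coord k (P b π x) = b.coord (π k) x :=
  coord_comb b (fun i => b.coord (π i) x) (sum_perm b π x) k

theorem P_symm (x : E n) : P b π (P b π.symm x) = x := by
  have h : ∀ k, b.coord k (P b π (P b π.symm x)) = b.coord k x := by
    intro k
    rw [coord_P, coord_P, Equiv.symm_apply_apply]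
  refine (b.linear_combination_coord_eq_self _).symm.trans (Eq.trans ?_
    (b.linear_combination_coord_eq_self x))
  exact Finset.sum_congr rfl fun k _ => by rw [h k]

theorem P_mem {x : E n} (hx : x ∈ convexHull ℝ (range b)) : P b π x ∈ convexHull ℝ (range b) := by
  rw [b.convexHull_eq_nonneg_coord] at hx ⊢
  intro k
  rw [coord_P]
  exact hx _

theorem image_P : P b π '' convexHull ℝ (range b) = convexHull ℝ (range b) := by
  apply Subset.antisymm
  · rintro _ ⟨x, hx, rfl⟩
    exact P_mem b π hx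
  · intro x hx
    exact ⟨P b π.symm x, P_mem b _ hx, P_symm b π x⟩

theorem vol_P (A : Set (E n)) : vol (P b π '' A) = |LinearMap.det (L b π)| * vol A := by
  have h1 : P b π '' A = (fun y => y + P b π 0) '' (L b π '' A) := by
    rw [image_image]
    exact image_congr fun x _ => P_eq b π x
  unfold vol
  rw [h1, image_add_right, measure_preimage_add_right, Measure.addHaar_image_linearMap,
    ENNReal.toReal_mul, ENNReal.toReal_ofReal (abs_nonneg _)]

theorem det_L : |LinearMap.det (L b π)| = 1 := by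
  have hcomp : IsCompact (convexHull ℝ (range b)) := (finite_range b).isCompact_convexHull ℝ
  have hpos : 0 < vol (convexHull ℝ (range b)) := by
    unfold vol
    refine ENNReal.toReal_pos ?_ hcomp.measure_lt_top.ne
    have h1 : (interior (convexHull ℝ (range b))).Nonempty := by
      rw [interior_convexHull_nonempty_iff_affineSpan_eq_top]
      exact b.tot
    exact ((isOpen_interior.measure_pos volume h1).trans_le (measure_mono interior_subset)).ne'
  have h := vol_P b π (convexHull ℝ (range b))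
  rw [image_P] at h
  have h2 : (|LinearMap.det (L b π)| - 1) * vol (convexHull ℝ (range b)) = 0 := by linarith
  rcases mul_eq_zero.1 h2 with h3 | h3
  · linarith
  · exact absurd h3 hpos.ne'

theorem step (x : E n) :
    vol (sy ((2 : ℝ) • x) (convexHull ℝ (range b))) ≤
      vol (sy ((2 : ℝ) • P b π x) (convexHull ℝ (range b))) := by
  have hcomp : IsCompact (convexHull ℝ (range b)) := (finite_range b).isCompact_convexHull ℝ
  have h1 : P b π '' (sy ((2 : ℝ) • x) (convexHull ℝ (range b))) ⊆
      sy ((2 : ℝ) • P b π x) (convexHull ℝ (range b)) := by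
    rintro _ ⟨y, hy, rfl⟩
    refine ⟨P_mem b π hy.1, ?_⟩
    have h2 := P_mem b π hy.2
    have h3 : P b π ((2 : ℝ) • x - y) = (2 : ℝ) • P b π x - P b π y := by
      rw [P_eq b π ((2 : ℝ) • x - y), P_eq b π x, P_eq b π y, map_sub, map_smul]
      module
    rw [h3] at h2
    exact h2
  have h2 := vol_mono h1 (vol_ne_top hcomp _)
  rw [vol_P, det_L, one_mul] at h2
  exact h2

theorem main (hn : n ≠ 0) (x : E n) :
    vol (sy ((2 : ℝ) • x) (convexHull ℝ (range b))) ≤
      vol (sy ((2 / ((n : ℝ) + 1)) • ∑ i, b i) (convexHull ℝ (range b))) := by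
  rcases (vol_nonneg (sy ((2 : ℝ) • x) (convexHull ℝ (range b)))).eq_or_lt with h0 | h0
  · rw [← h0]
    exact vol_nonneg _
  have hcomp : IsCompact (convexHull ℝ (range b)) := (finite_range b).isCompact_convexHull ℝ
  have hconv := conv hn (convex_convexHull ℝ (range b)) hcomp h0
  have hn1 : (0 : ℝ) < (n : ℝ) + 1 := by positivity
  have hmem := hconv.sum_mem (t := (Finset.univ : Finset (Fin (n + 1))))
    (w := fun _ => ((n : ℝ) + 1)⁻¹) (z := fun k => P b (Equiv.addRight k) x)
    (fun _ _ => by positivity)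
    (by
      rw [Finset.sum_const, Finset.card_univ, Fintype.card_fin, nsmul_eq_mul]
      push_cast
      exact mul_inv_cancel₀ hn1.ne')
    (fun k _ => step b (Equiv.addRight k) x)
  have hsum : ∑ k : Fin (n + 1), ((n : ℝ) + 1)⁻¹ • P b (Equiv.addRight k) x =
      ((n : ℝ) + 1)⁻¹ • ∑ i, b i := by
    rw [← Finset.smul_sum]
    congr 1
    unfold P
    rw [Finset.sum_comm]
    refine Finset.sum_congr rfl fun i _ => ?_
    rw [← Finset.sum_smul]
    have h2 : ∑ k : Fin (n + 1), b.coord (Equiv.addRight k i) x = 1 := by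
      have h3 : ∀ k : Fin (n + 1), Equiv.addRight k i = Equiv.addLeft i k := fun k => rfl
      simp only [h3]
      rw [Equiv.sum_comp (Equiv.addLeft i) (fun j => b.coord j x)]
      exact b.sum_coord_apply_eq_one x
    rw [h2, one_smul]
  rw [hsum] at hmem
  have h4 : (2 : ℝ) • ((n : ℝ) + 1)⁻¹ • ∑ i, b i = (2 / ((n : ℝ) + 1)) • ∑ i, b i := by
    rw [smul_smul, div_eq_mul_inv]
  have h5 : vol (sy ((2 : ℝ) • x) (convexHull ℝ (range b))) ≤
      vol (sy ((2 : ℝ) • ((n : ℝ) + 1)⁻¹ • ∑ i, b i) (convexHull ℝ (range b))) := hmem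
  rw [h4] at h5
  exact h5

end TOPN

/-- **TOPN** -/
theorem topn : S_TOPN := by
  intro n v hv c
  rcases Nat.eq_zero_or_pos n with h0 | h0
  · subst h0
    rw [Subsingleton.elim c ((2 / (((0 : ℕ) : ℝ) + 1)) • ∑ i, v i)]
  have htop : affineSpan ℝ (range v) = ⊤ := by
    rw [hv.affineSpan_eq_top_iff_card_eq_finrank_add_one]
    simp
  set b : AffineBasis (Fin (n + 1)) ℝ (E n) := ⟨v, hv, htop⟩ with hb
  have hbv : (b : Fin (n + 1) → E n) = v := rfl
  rw [← hbv]
  have hc : c = (2 : ℝ) • ((1 / 2 : ℝ) • c) := by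
    rw [smul_smul]
    norm_num
  have h := TOPN.main b h0.ne' ((1 / 2 : ℝ) • c)
  rw [← hc] at h
  exact h

end Pool.Agent.H619.BB

end
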