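import Pool.Agent.H619.BB.UP1
import Pool.Agent.H619.BB.SHELLN
import Pool.Agent.H619.BB.ADDN
import Pool.Agent.H619.BB.EXT
import Pool.Agent.H619.BB.TOPN
import Pool.Agent.H619.BB.SPX
import Pool.Agent.H619.BB.CENS
import Pool.Agent.H619.SB.SHP
import Pool.Agent.H619.SB.OUT
import Pool.Agent.H619.SB.SHELL
import Pool.Agent.H619.SB.ADD
import Pool.Agent.H619.SB.LIM
import Pool.Agent.H619.SB.HEL
import Pool.Agent.H619.SB.ASYM
import Pool.Agent.H619.SB.DET
import Pool.Agent.H619.SB.SIM
import Pool.Agent.H619.SB.SLAB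
import Pool.Agent.H619.SB.OCT
import Pool.Agent.H619.SB.TOP
import Pool.Agent.H619.SB.FIN
import Pool.Agent.H619.CS.AFF
import Pool.Agent.H619.CS.SL
import Pool.Agent.H619.CS.PS
import Pool.Agent.H619.CS.SIM
import Pool.Agent.H619.CS.STEP
import Pool.Agent.H619.CS.IND
import Pool.Graph.R_seed8.Results.MP_e508a7_gt.CentroidSymmetricPart

/-!
# Volume of the Blaschke body: the four results about MP_43065d_gt
-/

set_option autoImplicit false

open MeasureTheory Set

open scoped Pointwise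

noncomputable section

namespace Pool.Agent.H619.BB.FIN

lemma vol_pos {n : ℕ} {K : Set (E n)} (h : Body K) : 0 < vol K :=
  Pool.Agent.H619.BB.EXT.vol_pos h.1 h.2.2

lemma vol_nonneg {n : ℕ} (K : Set (E n)) : 0 ≤ vol K := ENNReal.toReal_nonneg

lemma up {n : ℕ} (hn : 1 ≤ n) {K B : Set (E n)} (c : E n) (hK : Body K)
    (hB : Bla K B) : vol (sy c K) * vol B ^ (n - 1) ≤ vol K ^ n :=
  Pool.Agent.H619.BB.up1 n K B c hn hK hB

theorem extr : Pool.Agent.H619.BB.S_EXT :=
  Pool.Agent.H619.BB.ext Pool.Agent.H619.BB.shelln Pool.Agent.H619.BB.addn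

theorem simplexBound : Pool.Agent.H619.BB.S_SPX :=
  Pool.Agent.H619.BB.spx extr Pool.Agent.H619.BB.topn

/-- from `m |B|^(n-1) ≤ |K|^n` and `r |K| ≤ m` -/
lemma of_ratio {n : ℕ} (hn : 1 ≤ n) {k b m r : ℝ} (hk : 0 < k) (hb : 0 ≤ b)
    (h1 : m * b ^ (n - 1) ≤ k ^ n) (h2 : r * k ≤ m) : r * b ^ (n - 1) ≤ k ^ (n - 1) := by
  have e : k ^ n = k * k ^ (n - 1) := by
    rw [← pow_succ', Nat.sub_add_cancel hn]
  have h3 : k * (r * b ^ (n - 1)) ≤ k * k ^ (n - 1) := by
    rw [← e]
    calc k * (r * b ^ (n - 1)) = (r * k) * b ^ (n - 1) := by ring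
      _ ≤ m * b ^ (n - 1) := mul_le_mul_of_nonneg_right h2 (pow_nonneg hb _)
      _ ≤ k ^ n := h1
  exact le_of_mul_le_mul_left h3 hk

/-- every body has a symmetric part of volume `(16/27)^n |K|` -/
lemma centroid_part {n : ℕ} {K : Set (E n)} (hK : Body K) :
    ∃ c : E n, (16 / 27 : ℝ) ^ n * vol K ≤ vol (sy c K) := by
  obtain ⟨hc, hv, hi⟩ := hK
  have hpos : 0 < (volume K).toReal := vol_pos ⟨hc, hv, hi⟩
  set g : E n := (volume K).toReal⁻¹ • ∫ x in K, x with hg
  set K' : Set (E n) := (fun x => x + g) ⁻¹' K with hK'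
  have e1 : K' = (fun x => -g + x) '' K := by
    ext y
    constructor
    · intro hy
      exact ⟨y + g, hy, by simp⟩
    · rintro ⟨x, hx, rfl⟩
      show -g + x + g ∈ K
      simpa using hx
  have hvolK : volume K' = volume K := by
    rw [hK']
    exact measure_preimage_add_right volume g K
  have hc' : IsCompact K' := by
    rw [e1]
    exact hc.image (by fun_prop)
  have hv' : Convex ℝ K' := hv.translate_preimage_left g
  have hi' : (interior K').Nonempty := by
    obtain ⟨x, hx⟩ := hi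
    refine ⟨x - g, ?_⟩
    have h1 : (fun x : E n => x + g) ⁻¹' interior K ⊆ interior K' :=
      interior_maximal (preimage_mono interior_subset)
        (isOpen_interior.preimage (by fun_prop))
    apply h1
    show x - g + g ∈ interior K
    simpa using hx
  have hcen : ∫ x in K', x = 0 := by
    have hmp : MeasurePreserving (fun x : E n => x + g) volume volume :=
      measurePreserving_add_right volume g
    have hemb : MeasurableEmbedding (fun x : E n => x + g) :=
      (Homeomorph.addRight g).measurableEmbedding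
    have h1 := hmp.setIntegral_preimage_emb hemb (fun y : E n => y - g) K
    have h2 : ∫ x in K', x = ∫ x in K', ((x + g) - g) := by simp
    rw [h2, hK', h1]
    have hint : IntegrableOn (fun x : E n => x) K :=
      continuous_id.continuousOn.integrableOn_compact hc
    have hint2 : IntegrableOn (fun _ : E n => g) K :=
      continuous_const.continuousOn.integrableOn_compact hc
    rw [integral_sub hint hint2, setIntegral_const, hg, Measure.real, smul_smul,
      mul_inv_cancel₀ hpos.ne', one_smul, sub_self]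
  have h := Pool.Agent.Results.MP_e508a7_gt.CentroidSymmetricPart.result.1 n K' hv' hc' hi' hcen
  refine ⟨(2 : ℝ) • g, ?_⟩
  have e2 : {x : E n | x ∈ K' ∧ -x ∈ K'} = (fun x => x + g) ⁻¹' (sy ((2 : ℝ) • g) K) := by
    ext x
    constructor
    · rintro ⟨h1, h2⟩
      refine ⟨h1, ?_⟩
      have e3 : (2 : ℝ) • g - (x + g) = -x + g := by module
      show (2 : ℝ) • g - (x + g) ∈ K
      rw [e3]
      exact h2
    · rintro ⟨h1, h2⟩
      refine ⟨h1, ?_⟩
      have e3 : (2 : ℝ) • g - (x + g) = -x + g := by module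
      change (2 : ℝ) • g - (x + g) ∈ K at h2
      rw [e3] at h2
      exact h2
  have h4 : volume ((fun x => x + g) ⁻¹' (sy ((2 : ℝ) • g) K)) =
      volume (sy ((2 : ℝ) • g) K) := measure_preimage_add_right volume g _
  rw [e2, h4, hvolK] at h
  have hfin : volume (sy ((2 : ℝ) • g) K) ≠ ⊤ :=
    ((measure_mono fun x hx => hx.1).trans_lt hc.measure_lt_top).ne
  have h3 := ENNReal.toReal_mono hfin h
  rw [ENNReal.toReal_mul, ENNReal.toReal_ofReal (by positivity)] at h3
  exact h3

/-- universal bound in `ℝ^n` -/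
lemma partA {n : ℕ} (hn : 1 ≤ n) {K B : Set (E n)} (hK : Body K)
    (hB : Bla K B) : (16 / 27 : ℝ) ^ n * vol B ^ (n - 1) ≤ vol K ^ (n - 1) := by
  obtain ⟨c, hc⟩ := centroid_part hK
  exact of_ratio hn (vol_pos hK) (vol_nonneg B) (up hn c hK hB) hc

theorem good : Pool.Agent.H619.SB.Good (77 / 200) :=
  Pool.Agent.H619.SB.fin (Pool.Agent.H619.SB.lim
    (Pool.Agent.H619.SB.shell Pool.Agent.H619.SB.shp Pool.Agent.H619.SB.out)
    Pool.Agent.H619.SB.add) (Pool.Agent.H619.SB.asym Pool.Agent.H619.SB.hel)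
    (Pool.Agent.H619.SB.sim Pool.Agent.H619.SB.det)
    (Pool.Agent.H619.SB.oct (Pool.Agent.H619.SB.shell Pool.Agent.H619.SB.shp
      Pool.Agent.H619.SB.out) Pool.Agent.H619.SB.slabv)

/-- bound in `ℝ³` -/
lemma partB {K B : Set (E 3)} (hK : Body K) (hB : Bla K B) :
    77 * vol B ^ 2 ≤ 200 * vol K ^ 2 := by
  obtain ⟨c, hc⟩ := good ⟨K, hK.2.1, hK.1, hK.2.2.mono interior_subset⟩ hK.2.2
  have h := of_ratio (n := 3) (by norm_num) (vol_pos hK) (vol_nonneg B)
    (up (by norm_num) c hK hB) hc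
  norm_num at h
  linarith

/-- polytopes with at most `n + 2` vertices -/
lemma partC {n : ℕ} (hn : 2 ≤ n) (w : Fin (n + 2) → E n) (v : Fin (n + 1) → E n)
    (B B' : Set (E n)) (hw : (interior (convexHull ℝ (range w))).Nonempty)
    (hv : AffineIndependent ℝ v) (hB : Bla (convexHull ℝ (range w)) B)
    (hB' : Bla (convexHull ℝ (range v)) B') :
    vol B * vol (convexHull ℝ (range v)) ≤ vol B' * vol (convexHull ℝ (range w)) := by
  have h1n : 1 ≤ n := by omega
  set K := convexHull ℝ (range w) with hKdef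
  set T := convexHull ℝ (range v) with hTdef
  have hKc : IsCompact K := (finite_range w).isCompact_convexHull ℝ
  have hTc : IsCompact T := (finite_range v).isCompact_convexHull ℝ
  have hK : Body K := ⟨hKc, convex_convexHull ℝ _, hw⟩
  have hT : Body T := by
    refine ⟨hTc, convex_convexHull ℝ _, ?_⟩
    rw [hTdef, interior_convexHull_nonempty_iff_affineSpan_eq_top]
    exact hv.affineSpan_eq_top_iff_card_eq_finrank_add_one.mpr (by simp)
  have hkpos := vol_pos hK
  have htpos := vol_pos hT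
  -- the ratio of the symmetric parts
  have hind := Pool.Agent.H619.CS.ind (Pool.Agent.H619.CS.sim Pool.Agent.H619.CS.aff)
    (Pool.Agent.H619.CS.step Pool.Agent.H619.CS.aff Pool.Agent.H619.CS.ps Pool.Agent.H619.CS.sl)
    n v w hv hw
  set cK := (2 : ℝ) • Pool.Agent.H619.CS.cen volume K with hcK
  set cT := (2 : ℝ) • Pool.Agent.H619.CS.cen volume T with hcT
  have hsK : Pool.Agent.H619.CS.symv volume K = volume (sy cK K) := rfl
  have hsT : Pool.Agent.H619.CS.symv volume T = volume (sy cT T) := rfl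
  have hfK : volume (sy cK K) ≠ ⊤ :=
    ((measure_mono fun x hx => hx.1).trans_lt hKc.measure_lt_top).ne
  have hfT : volume (sy cT T) ≠ ⊤ :=
    ((measure_mono fun x hx => hx.1).trans_lt hTc.measure_lt_top).ne
  have hI : vol (sy cT T) * vol K ≤ vol (sy cK K) * vol T := by
    change volume (sy cT T) * volume K ≤ volume (sy cK K) * volume T at hind
    have := ENNReal.toReal_mono (ENNReal.mul_ne_top hfK hTc.measure_lt_top.ne) hind
    rw [ENNReal.toReal_mul, ENNReal.toReal_mul] at this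
    exact this
  have hU : vol (sy cK K) * vol B ^ (n - 1) ≤ vol K ^ n := up h1n cK hK hB
  have hS : vol T ^ n ≤ vol (sy cT T) * vol B' ^ (n - 1) := by
    have h := simplexBound n v B' h1n hv hB'
    have e : (2 / ((n : ℝ) + 1)) • ∑ i, v i = cT := by
      rw [hcT, hTdef, Pool.Agent.H619.BB.cens n v hv, smul_smul, div_eq_mul_inv]
    rw [e] at h
    exact h
  have hb : 0 ≤ vol B := vol_nonneg B
  have hb' : 0 ≤ vol B' := vol_nonneg B'
  have hsTn : 0 ≤ vol (sy cT T) := vol_nonneg _
  -- `|B|^(n-1) s_T ≤ |K|^(n-1) |T|`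
  have eK : vol K ^ n = vol K * vol K ^ (n - 1) := by
    rw [← pow_succ', Nat.sub_add_cancel h1n]
  have eT : vol T ^ n = vol T * vol T ^ (n - 1) := by
    rw [← pow_succ', Nat.sub_add_cancel h1n]
  have h1 : vol (sy cT T) * vol B ^ (n - 1) ≤ vol K ^ (n - 1) * vol T := by
    have : vol K * (vol (sy cT T) * vol B ^ (n - 1)) ≤
        vol K * (vol K ^ (n - 1) * vol T) := by
      calc vol K * (vol (sy cT T) * vol B ^ (n - 1))
          = (vol (sy cT T) * vol K) * vol B ^ (n - 1) := by ring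
        _ ≤ (vol (sy cK K) * vol T) * vol B ^ (n - 1) :=
            mul_le_mul_of_nonneg_right hI (pow_nonneg hb _)
        _ = (vol (sy cK K) * vol B ^ (n - 1)) * vol T := by ring
        _ ≤ vol K ^ n * vol T := mul_le_mul_of_nonneg_right hU htpos.le
        _ = vol K * (vol K ^ (n - 1) * vol T) := by rw [eK]; ring
    exact le_of_mul_le_mul_left this hkpos
  have h2 : (vol B * vol T) ^ (n - 1) ≤ (vol B' * vol K) ^ (n - 1) := by
    rw [mul_pow, mul_pow]
    have : vol T * (vol B ^ (n - 1) * vol T ^ (n - 1)) ≤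
        vol T * (vol B' ^ (n - 1) * vol K ^ (n - 1)) := by
      calc vol T * (vol B ^ (n - 1) * vol T ^ (n - 1)) = vol B ^ (n - 1) * vol T ^ n := by
            rw [eT]; ring
        _ ≤ vol B ^ (n - 1) * (vol (sy cT T) * vol B' ^ (n - 1)) :=
            mul_le_mul_of_nonneg_left hS (pow_nonneg hb _)
        _ = (vol (sy cT T) * vol B ^ (n - 1)) * vol B' ^ (n - 1) := by ring
        _ ≤ (vol K ^ (n - 1) * vol T) * vol B' ^ (n - 1) :=
            mul_le_mul_of_nonneg_right h1 (pow_nonneg hb' _)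
        _ = vol T * (vol B' ^ (n - 1) * vol K ^ (n - 1)) := by ring
    exact le_of_mul_le_mul_left this htpos
  exact (pow_le_pow_iff_left₀ (mul_nonneg hb htpos.le) (mul_nonneg hb' hkpos.le)
    (by omega)).1 h2

/-- the Blaschke body of a tetrahedron -/
lemma partT (p : Fin 4 → E 3) (B : Set (E 3)) (hp : AffineIndependent ℝ p)
    (hB : Bla (convexHull ℝ (range p)) B) :
    vol B ^ 2 = 2 * vol (convexHull ℝ (range p)) ^ 2 := by
  have slabv' : Pool.Agent.H619.SB.S_SLAB := Pool.Agent.H619.SB.slabv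
  set T := convexHull ℝ (range p) with hTdef
  have hTc : IsCompact T := (finite_range p).isCompact_convexHull ℝ
  have hT : Body T := by
    refine ⟨hTc, convex_convexHull ℝ _, ?_⟩
    rw [hTdef, interior_convexHull_nonempty_iff_affineSpan_eq_top]
    exact hp.affineSpan_eq_top_iff_card_eq_finrank_add_one.mpr (by simp)
  have htpos := vol_pos hT
  obtain ⟨O, hO1, hO2, ⟨g, hg⟩, hO4, -⟩ := Pool.Agent.H619.SB.oct
    (Pool.Agent.H619.SB.shell Pool.Agent.H619.SB.shp Pool.Agent.H619.SB.out) slabv' p hp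
  have hb : 0 ≤ vol B := vol_nonneg B
  -- upper bound
  have hup := up (n := 3) (by norm_num) ((2 : ℝ) • g) hT hB
  have hsub : (fun y => g + y) '' (O : Set (E 3)) ⊆ sy ((2 : ℝ) • g) T := by
    rintro _ ⟨y, hy, rfl⟩
    refine ⟨hg y hy, ?_⟩
    have e : (2 : ℝ) • g - (g + y) = g + -y := by module
    show (2 : ℝ) • g - (g + y) ∈ T
    rw [e]
    exact hg _ (hO2 y hy)
  have hge : vol T ≤ 2 * vol (sy ((2 : ℝ) • g) T) := by
    have h1 : vol ((fun y => g + y) '' (O : Set (E 3))) ≤ vol (sy ((2 : ℝ) • g) T) :=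
      ENNReal.toReal_mono
        ((measure_mono fun x hx => hx.1).trans_lt hTc.measure_lt_top).ne (measure_mono hsub)
    have h2 : vol ((fun y => g + y) '' (O : Set (E 3))) = vol (O : Set (E 3)) := by
      unfold vol
      rw [image_add_left, measure_preimage_add]
    have h3 : 2 * vol (O : Set (E 3)) = vol T := hO4
    linarith
  have hle := Pool.Agent.H619.SB.top slabv' p hp
  have hspx := simplexBound 3 p B (by norm_num) hp hB
  have hle' : ∀ c : E 3, 2 * vol (sy c T) ≤ vol T := hle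
  have hspx' : vol T ^ 3 ≤ vol (sy ((2 / (((3 : ℕ) : ℝ) + 1)) • ∑ i, p i) T) * vol B ^ 2 :=
    hspx
  have h1 := hle' ((2 / (((3 : ℕ) : ℝ) + 1)) • ∑ i, p i)
  have hup' : vol (sy ((2 : ℝ) • g) T) * vol B ^ 2 ≤ vol T ^ 3 := hup
  apply le_antisymm
  · -- `|B|² ≤ 2 |T|²`
    have : vol T * vol B ^ 2 ≤ vol T * (2 * vol T ^ 2) := by nlinarith [sq_nonneg (vol B)]
    exact le_of_mul_le_mul_left this htpos
  · have : vol T * (2 * vol T ^ 2) ≤ vol T * vol B ^ 2 := by nlinarith [sq_nonneg (vol B)]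
    exact le_of_mul_le_mul_left this htpos

/-- the erosion of a body by a multiple of `B` is a body if its volume is positive -/
lemma ero_body {n : ℕ} {K B : Set (E n)} (hK : Body K) (hB : Body B) (ε : ℝ)
    (h : 0 < vol (Pool.Agent.H619.BB.ero K (ε • B))) :
    Body (Pool.Agent.H619.BB.ero K (ε • B)) := by
  have hBc : IsCompact (ε • B) := hB.1.smul ε
  have hBv : Convex ℝ (ε • B) := hB.2.1.smul ε
  have hBn : (ε • B).Nonempty := (hB.2.2.mono interior_subset).smul_set
  set K₁ : ConvexBody (E n) := ⟨K, hK.2.1, hK.1, hK.2.2.mono interior_subset⟩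
  set Z : ConvexBody (E n) := ⟨ε • B, hBv, hBc, hBn⟩
  have hc : IsCompact (Pool.Agent.H619.BB.ero K (ε • B)) :=
    Pool.Agent.H619.BB.ADDN.compact_ero K₁ Z
  have hv : Convex ℝ (Pool.Agent.H619.BB.ero K (ε • B)) :=
    Pool.Agent.H619.BB.ADDN.convex_ero K₁ Z
  refine ⟨hc, hv, ?_⟩
  by_contra hne
  rw [not_nonempty_iff_eq_empty] at hne
  have h0 : volume (Pool.Agent.H619.BB.ero K (ε • B)) = 0 := by
    have h1 := hv.addHaar_frontier (volume : Measure (E n))
    rw [frontier, hne, sdiff_empty, hc.isClosed.closure_eq] at h1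
    exact h1
  unfold vol at h
  rw [h0] at h
  simp at h

/-- the two problems have the same constant and the same extremal bodies -/
lemma partD {n : ℕ} (hn : 1 ≤ n) {r : ℝ}
    (hr : ∀ K' : Set (E n), Body K' → ∃ c : E n, r * vol K' ≤ vol (sy c K'))
    {K B : Set (E n)} (hK : Body K) (hB : Bla K B) :
    r * vol B ^ (n - 1) ≤ vol K ^ (n - 1) ∧
      (r * vol B ^ (n - 1) = vol K ^ (n - 1) ↔ ∀ c : E n, vol (sy c K) ≤ r * vol K) := by
  have hkpos := vol_pos hK
  have hbpos := vol_pos hB.1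
  have h1 : r * vol B ^ (n - 1) ≤ vol K ^ (n - 1) := by
    obtain ⟨c, hc⟩ := hr K hK
    exact of_ratio hn hkpos hbpos.le (up hn c hK hB) hc
  refine ⟨h1, ?_, ?_⟩
  · intro h c
    have h2 := up hn c hK hB
    have e : vol K ^ n = vol K * vol K ^ (n - 1) := by
      rw [← pow_succ', Nat.sub_add_cancel hn]
    have hp : 0 < vol B ^ (n - 1) := pow_pos hbpos _
    have h3 : vol (sy c K) * vol B ^ (n - 1) ≤ (r * vol K) * vol B ^ (n - 1) := by
      calc vol (sy c K) * vol B ^ (n - 1) ≤ vol K ^ n := h2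
        _ = vol K * (r * vol B ^ (n - 1)) := by rw [e, h]
        _ = (r * vol K) * vol B ^ (n - 1) := by ring
    exact le_of_mul_le_mul_right h3 hp
  · intro h
    refine le_antisymm h1 ?_
    exact extr n K B r hn hK hB h fun ε _ hε => hr _ (ero_body hK hB.1 ε hε)

end Pool.Agent.H619.BB.FIN

end
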