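import Pool.Agent.H619.BB.FIN

/-!
# Volume of the Blaschke body in all dimensions: the constant of the second moment method

Uses the library theorem `t_KBN` (`Pool/Graph/R_seed8/H748R2/KB`): every convex body `L` in `ℝ^n` has a
part `L ∩ (z - L)` of volume at least `(2n)!² / (n! (3n)!) |L|`.
-/

set_option autoImplicit false

open MeasureTheory Set

open scoped Pointwise

noncomputable section

namespace Pool.Agent.H619.BB.FIN2

open Pool.Agent.Results.MP_e508a7_gt.CentroidSymmetricPart (co' mp vol_image cb_image)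
open Pool.Agent.H619.BB.FIN (vol_pos vol_nonneg up of_ratio)
open Pool.Agent.H748R2.KB

/-- the largest symmetric part -/
lemma kbn {n : ℕ} (hn : 1 ≤ n) {K : Set (E n)} (hK : Body K) :
    ∃ c : E n, ((2 * n).factorial : ℝ) ^ 2 * vol K ≤
      ((n.factorial : ℝ) * (3 * n).factorial) * vol (Pool.Agent.H619.BB.sy c K) := by
  obtain ⟨hc, hv, hi⟩ := hK
  obtain ⟨z, hz⟩ := t_KBN t_USC t_INT1 t_L2 (t_COV t_BM (t_RAD t_BM) t_CHEB t_INT2) n hn
    (co' n '' K) (cb_image hv hc hi)
  refine ⟨(co' n).symm z, ?_⟩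
  have hcs : IsCompact (Pool.Agent.H619.BB.sy ((co' n).symm z) K) := by
    have e : Pool.Agent.H619.BB.sy ((co' n).symm z) K =
        K ∩ (fun x => (co' n).symm z - x) ⁻¹' K := rfl
    rw [e]
    exact hc.inter_right (hc.isClosed.preimage (by fun_prop))
  have e1 : Pool.Agent.H404R2.TH.V (co' n '' K) = vol K := by
    unfold Pool.Agent.H404R2.TH.V vol
    rw [vol_image hc]
  have e2 : Pool.Agent.H748R2.KB.sy (co' n '' K) z =
      co' n '' (Pool.Agent.H619.BB.sy ((co' n).symm z) K) := by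
    ext y
    constructor
    · rintro ⟨⟨x, hx, rfl⟩, ⟨x', hx', h⟩⟩
      refine ⟨x, ⟨hx, ?_⟩, rfl⟩
      have h2 : (co' n).symm z - x = x' := by
        apply (co' n).injective
        rw [map_sub, (co' n).apply_symm_apply, h]
      rw [h2]
      exact hx'
    · rintro ⟨x, ⟨hx, hx'⟩, rfl⟩
      refine ⟨⟨x, hx, rfl⟩, ⟨_, hx', ?_⟩⟩
      rw [map_sub, (co' n).apply_symm_apply]
  have e3 : Pool.Agent.H404R2.TH.V (Pool.Agent.H748R2.KB.sy (co' n '' K) z) =
      vol (Pool.Agent.H619.BB.sy ((co' n).symm z) K) := by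
    unfold Pool.Agent.H404R2.TH.V vol
    rw [e2, vol_image hcs]
  rw [e1, e3] at hz
  exact hz

/-- universal bound in `ℝ^n` -/
lemma partA {n : ℕ} (hn : 1 ≤ n) {K B : Set (E n)} (hK : Body K) (hB : Bla K B) :
    ((2 * n).factorial : ℝ) ^ 2 * vol B ^ (n - 1) ≤
      ((n.factorial : ℝ) * (3 * n).factorial) * vol K ^ (n - 1) := by
  obtain ⟨c, hc⟩ := kbn hn hK
  have hpos : (0 : ℝ) < (n.factorial : ℝ) * (3 * n).factorial := by positivity
  have h2 : ((2 * n).factorial : ℝ) ^ 2 / ((n.factorial : ℝ) * (3 * n).factorial) * vol K ≤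
      vol (Pool.Agent.H619.BB.sy c K) := by
    rw [div_mul_eq_mul_div, div_le_iff₀ hpos]
    linarith
  have h := of_ratio hn (vol_pos hK) (vol_nonneg B) (up hn c hK hB) h2
  rw [div_mul_eq_mul_div, div_le_iff₀ hpos] at h
  linarith

end Pool.Agent.H619.BB.FIN2

end
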