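import Pool.Agent.H590.M3.MV3
import Pool.Agent.H619.CS.St

/-!
# Project BB (MP_43065d_gt): volume of the Blaschke body

Statements `S_X : Prop` with complete paper proofs in the docstrings. The Blaschke body `B` of `K` is
described as in the frozen statement S13932 of the sibling problem MP_c7fc41_gt: `B = -B` and the
first variation of the volume of `B` in every direction `L` is the mean of those of `K` and `-K`.
`sy c S = S ∩ (c - S)`, `ero K L = {x | x + L ⊆ K}`.
-/

set_option autoImplicit false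
set_option linter.unusedSectionVars false

open MeasureTheory Set Module
open scoped Pointwise NNReal ENNReal

noncomputable section

namespace Pool.Agent.H619.BB

/-- `n`-dimensional space -/
abbrev E (n : ℕ) : Type := EuclideanSpace ℝ (Fin n)

/-- the volume as a real number -/
def vol {n : ℕ} (S : Set (E n)) : ℝ := (volume S).toReal

/-- convex bodies: compact convex sets with nonempty interior -/
def Body {n : ℕ} (K : Set (E n)) : Prop := IsCompact K ∧ Convex ℝ K ∧ (interior K).Nonempty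

/-- the part of `S` which is symmetric about the point `c / 2` -/
def sy {n : ℕ} (c : E n) (S : Set (E n)) : Set (E n) := {x | x ∈ S ∧ c - x ∈ S}

/-- Minkowski difference (erosion) `K ~ L = {x : x + L ⊆ K}` -/
def ero {n : ℕ} (K L : Set (E n)) : Set (E n) := {x | ∀ y ∈ L, x + y ∈ K}

/-- `B` is the Blaschke body of `K` -/
def Bla {n : ℕ} (K B : Set (E n)) : Prop :=
  Body B ∧ -B = B ∧ ∀ L : Set (E n), IsCompact L → Convex ℝ L → L.Nonempty →
    HasDerivWithinAt (fun ε : ℝ => vol (B + ε • L) - (vol (K + ε • L) + vol (-K + ε • L)) / 2)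
      0 (Ici 0) 0

/-- UP1. Proof. Let `V = vol K`, `m = vol (sy c K)`; if `m = 0` it is clear. Let
`Z = {y | c/2 + y ∈ K ∧ c/2 - y ∈ K} = sy c K - c/2`, a compact convex set with `-Z = Z`, nonempty,
`vol Z = m`. As `Z ⊆ K - c/2` and `Z ⊆ -K + c/2`, both `K + ε • Z` and `-K + ε • Z` are contained in
translates of `(1 + ε) • K`, `(1 + ε) • (-K)` (convexity: `K + ε • K ⊆ (1 + ε) • K`), of volume
`(1 + ε)^n V` (`0 ≤ ε`). Let `b, ζ ≥ 0` with `b^n = vol B`, `ζ^n = m`. By the Brunn-Minkowski
inequality (`Pool.Agent.H590.M3.bm_real`, for the convex bodies `B` and `ε • Z`)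
`(b + ε ζ)^n ≤ vol (B + ε • Z)`. So for the function `D` of `Bla` with `L = Z` we have
`D ε ≥ g ε := (b + ε ζ)^n - (1 + ε)^n V` for `ε ≥ 0`, and `D 0 = vol B - V = g 0` (`0 • Z = {0}`). `D` has
the right derivative `0` at `0`, so the derivative of `g` at `0` is at most `0`:
`n b^(n-1) ζ - n V ≤ 0`. Hence `b^(n-1) ζ ≤ V`; take the `n`-th power:
`(vol B)^(n-1) m ≤ V^n`. -/
def S_UP1 : Prop :=
  ∀ (n : ℕ) (K B : Set (E n)) (c : E n), 1 ≤ n → Body K → Bla K B →
    vol (sy c K) * vol B ^ (n - 1) ≤ vol K ^ n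

/-- SHELLN. The case `n = 3` is proved in `Pool/Agent/H619/SB/{SHP,OUT,SHELL}.lean` (statements with
paper proofs `S_SHP`, `S_OUT`, `S_SHELL` in `Pool/Agent/H619/SB/St.lean`). The proof does not use the
dimension, except for the factor `(1 + ε)^n`: please port these files. -/
def S_SHELLN : Prop :=
  ∀ (n : ℕ) (K L : ConvexBody (E n)), (interior (K : Set (E n))).Nonempty →
    (0 : E n) ∈ interior (L : Set (E n)) →
    2 * vol (K : Set (E n)) ≤ vol (ero (K : Set (E n)) L) + vol ((K : Set (E n)) + (L : Set (E n)))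

/-- ADDN. The case `n = 3` is in `Pool/Agent/H619/SB/ADD.lean`, the proof is the same: let
`A = sy c (ero K Z)`, a nonempty compact convex set. For `x ∈ A`, `z ∈ Z`: `x + z ∈ K` and
`c - (x + z) = (c - x) + (-z) ∈ K`. So `A + Z ⊆ sy c K`; use `Pool.Agent.H590.M3.bm_real`. -/
def S_ADDN : Prop :=
  ∀ (n : ℕ) (K Z : ConvexBody (E n)) (c : E n) (a z : ℝ), (∀ y ∈ Z, -y ∈ Z) → 0 ≤ a → 0 ≤ z →
    (sy c (ero (K : Set (E n)) Z)).Nonempty → a ^ n ≤ vol (sy c (ero (K : Set (E n)) Z)) →
    z ^ n ≤ vol (Z : Set (E n)) → (a + z) ^ n ≤ vol (sy c (K : Set (E n)))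

/-- EXT (from SHELLN, ADDN). Proof. Let `V = vol K > 0`, `ζ ≥ 0` with `ζ^n = vol B > 0`. `0 < r`: otherwise
`vol (sy c K) ≤ 0` for all `c`, but for `c = 2 x`, `x ∈ interior K`, the set contains a ball. As
`-B = B` we have `vol (-K + ε • B) = vol (K + ε • B)`, and `vol (B + ε • B) = (1 + ε)^n vol B` for
`ε ≥ 0` (`Convex.add_smul`). So `Bla` with `L = B` says that `f ε = vol (K + ε • B)` has the right
derivative `n vol B` at `0`, `f 0 = V`. By SHELLN (`0 ∈ interior (ε • B)` for `ε > 0` since `B` is a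
symmetric body) `vol (ero K (ε • B)) ≥ 2 V - f ε =: q ε`, so `q 0 = V`, `q' 0 = - n vol B`, and
`0 < q ε` for small `ε > 0`. By the hypothesis there is a `c` with
`r q ε ≤ r vol (ero K (ε • B)) ≤ vol (sy c (ero K (ε • B)))`; in particular this set is nonempty. ADDN
with `a = (r q ε)^(1/n)` and `z = ε ζ` gives `((r q ε)^(1/n) + ε ζ)^n ≤ vol (sy c K) ≤ r V`, so with
`s = (r V)^(1/n)`: `r q ε ≤ (s - ε ζ)^n` for small `ε > 0` (and `ε ζ ≤ s`), with equality for `ε = 0`.
Compare the right derivatives at `0`: `- r n vol B ≤ - n s^(n-1) ζ`, i.e.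
`s^(n-1) ζ ≤ r vol B`. The `n`-th power: `(r V)^(n-1) vol B ≤ r^n (vol B)^n`; divide by
`r^(n-1) vol B > 0`. -/
def S_EXT : Prop :=
  ∀ (n : ℕ) (K B : Set (E n)) (r : ℝ), 1 ≤ n → Body K → Bla K B →
    (∀ c : E n, vol (sy c K) ≤ r * vol K) →
    (∀ ε : ℝ, 0 < ε → 0 < vol (ero K (ε • B)) →
      ∃ c : E n, r * vol (ero K (ε • B)) ≤ vol (sy c (ero K (ε • B)))) →
    vol K ^ (n - 1) ≤ r * vol B ^ (n - 1)

/-- TOPN. The largest symmetric part of a simplex is centred at the centroid. Proof. Let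
`T = convexHull (range v)`, `f c = vol (sy c T)`, `τ = f c₀`; we may assume `τ > 0`. The set
`W = {c | τ ≤ f c}` is convex: for `c, c' ∈ W`, `0 ≤ t ≤ 1` we have
`(1-t) • sy c T + t • sy c' T ⊆ sy ((1-t) c + t c') T` and Brunn-Minkowski
(`Pool.Agent.H590.M3.bm_real`; the sets are compact, convex, nonempty). For a permutation `π` let `σ` be
the affine map with `σ (v i) = v (π i)`. It maps `T` onto `T`, so it preserves the volume (its linear
part has determinant of absolute value `1`, as `0 < vol T < ∞`), and `σ '' sy (2 x) T = sy (2 σ x) T`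
(`σ (2 x - y) = 2 σ x - σ y`), so `f (2 σ x) = f (2 x)`. With `c₀ = 2 x₀`, `x₀ = ∑ β i • v i`,
`∑ β i = 1`, the mean of `σ x₀` over the cyclic permutations (`Fin (n+1)`, `i ↦ i + k`) is
`(n+1)⁻¹ ∑ v i`. As `W` is convex it contains `2 (n+1)⁻¹ ∑ v i`. -/
def S_TOPN : Prop :=
  ∀ (n : ℕ) (v : Fin (n + 1) → E n), AffineIndependent ℝ v → ∀ c : E n,
    vol (sy c (convexHull ℝ (range v))) ≤
      vol (sy ((2 / ((n : ℝ) + 1)) • ∑ i, v i) (convexHull ℝ (range v)))

/-- SPX (from EXT, TOPN). The Blaschke body of a simplex. Proof. Let `T = convexHull (range v)`,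
`c₀ = (2/(n+1)) ∑ v i`, `r = vol (sy c₀ T) / vol T`. Apply EXT to `K = T`. First hypothesis: TOPN. Second
hypothesis: let `ε > 0`, and let `b i` be the barycentric coordinates with respect to `v` (affine
functions, `T = {∀ i, 0 ≤ b i}`), `β i` their linear parts, `m i = max_{y ∈ B} (- β i y) ≥ 0`. Then
`ero T (ε • B) = {x | ∀ i, ε m i ≤ b i x}`. Let `μ = ε ∑ m i`. If `μ ≥ 1` this set has at most one point
(`∑ b i = 1`), so its volume is `0` (`n ≥ 1`). If `μ < 1` it is the image of `T` under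
`x ↦ (1 - μ) x + w`, `w = ∑ ε m i • v i` (in barycentric coordinates `b ↦ (1 - μ) b + ε m`). Its volume is
`(1 - μ)^n vol T`, and `sy ((1 - μ) c₀ + 2 w) (ero T (ε • B))` is the image of `sy c₀ T`, of volume
`(1 - μ)^n vol (sy c₀ T)`. So the second hypothesis holds with equality. The conclusion of EXT
multiplied by `vol T` is the assertion. -/
def S_SPX : Prop :=
  ∀ (n : ℕ) (v : Fin (n + 1) → E n) (B : Set (E n)), 1 ≤ n → AffineIndependent ℝ v →
    Bla (convexHull ℝ (range v)) B →
    vol (convexHull ℝ (range v)) ^ n ≤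
      vol (sy ((2 / ((n : ℝ) + 1)) • ∑ i, v i) (convexHull ℝ (range v))) * vol B ^ (n - 1)

/-- CENS. The centroid of a simplex is the mean of the vertices. (See also
`Pool/Agent/H619/SB/FIVE.lean`, where this is proved for `n = 3`.) Proof: the centroid is fixed by the
affine maps exchanging two vertices (they map the simplex onto itself and preserve the volume; or
use `Pool.Agent.H619.CS.aff`), and a point with this property has equal barycentric coordinates. -/
def S_CENS : Prop :=
  ∀ (n : ℕ) (v : Fin (n + 1) → E n), AffineIndependent ℝ v →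
    Pool.Agent.H619.CS.cen volume (convexHull ℝ (range v)) = ((n : ℝ) + 1)⁻¹ • ∑ i, v i

end Pool.Agent.H619.BB

end
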