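import Pool.Agent.H619.BB.St

/-!
# UP1: volume of the Blaschke body from a symmetric subset
-/

set_option autoImplicit false

open MeasureTheory Set Module
open scoped Pointwise NNReal ENNReal

noncomputable section

namespace Pool.Agent.H619.BB

namespace UP1

variable {n : ℕ}

theorem vol_mono {S T : Set (E n)} (h : S ⊆ T) (hT : volume T ≠ ∞) : vol S ≤ vol T :=
  ENNReal.toReal_mono hT (measure_mono h)

theorem vol_smul (r : ℝ) (hr : 0 ≤ r) (S : Set (E n)) : vol (r • S) = r ^ n * vol S := by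
  unfold vol
  rw [Measure.addHaar_smul, finrank_euclideanSpace_fin, ENNReal.toReal_mul,
    abs_of_nonneg (pow_nonneg hr n), ENNReal.toReal_ofReal (pow_nonneg hr n)]

theorem vol_nonneg (S : Set (E n)) : 0 ≤ vol S := ENNReal.toReal_nonneg

theorem vol_neg (S : Set (E n)) : vol (-S) = vol S := by
  unfold vol
  rw [Measure.measure_neg]

theorem deriv_nonneg {h : ℝ → ℝ} {h' : ℝ} (hd : HasDerivWithinAt h h' (Ici 0) 0)
    (h0 : ∀ ε : ℝ, 0 < ε → h 0 ≤ h ε) : 0 ≤ h' := by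
  have h1 : HasDerivWithinAt h h' (Ioi 0) 0 := hd.mono Ioi_subset_Ici_self
  rw [hasDerivWithinAt_iff_tendsto_slope' (by simp)] at h1
  refine ge_of_tendsto h1 ?_
  filter_upwards [self_mem_nhdsWithin] with ε hε
  have hε' : 0 < ε := hε
  rw [slope_def_field]
  exact div_nonneg (by linarith [h0 ε hε']) (by linarith)

theorem exists_root (hn : 1 ≤ n) {x : ℝ} (hx : 0 ≤ x) : ∃ b : ℝ, 0 ≤ b ∧ b ^ n = x :=
  ⟨x ^ ((n : ℝ)⁻¹), Real.rpow_nonneg hx _, Real.rpow_inv_natCast_pow hx (by omega)⟩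

/-- the symmetric subset, centred at the origin -/
def Z (c : E n) (K : Set (E n)) : Set (E n) :=
  {y | (1 / 2 : ℝ) • c + y ∈ K ∧ (1 / 2 : ℝ) • c - y ∈ K}

theorem Z_eq (c : E n) (K : Set (E n)) : Z c K = (fun y => (1 / 2 : ℝ) • c + y) ⁻¹' (sy c K) := by
  ext y
  have e : c - ((1 / 2 : ℝ) • c + y) = (1 / 2 : ℝ) • c - y := by module
  constructor
  · rintro ⟨h1, h2⟩
    exact ⟨h1, by show c - ((1 / 2 : ℝ) • c + y) ∈ K; rw [e]; exact h2⟩
  · rintro ⟨h1, h2⟩
    have h2' : c - ((1 / 2 : ℝ) • c + y) ∈ K := h2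
    rw [e] at h2'
    exact ⟨h1, h2'⟩

theorem vol_Z (c : E n) (K : Set (E n)) : vol (Z c K) = vol (sy c K) := by
  unfold vol
  rw [Z_eq, measure_preimage_add]

theorem Z_neg (c : E n) (K : Set (E n)) : -(Z c K) = Z c K := by
  ext y
  have e1 : (1 / 2 : ℝ) • c + -y = (1 / 2 : ℝ) • c - y := (sub_eq_add_neg _ _).symm
  have e2 : (1 / 2 : ℝ) • c - -y = (1 / 2 : ℝ) • c + y := sub_neg_eq_add _ _
  constructor
  · rintro ⟨h1, h2⟩
    rw [e1] at h1
    rw [e2] at h2
    exact ⟨h2, h1⟩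
  · rintro ⟨h1, h2⟩
    refine ⟨?_, ?_⟩
    · rw [e1]; exact h2
    · rw [e2]; exact h1

theorem Z_convex {c : E n} {K : Set (E n)} (hK : Convex ℝ K) : Convex ℝ (Z c K) := by
  intro x hx x' hx' a b ha hb hab
  have hb' : b = 1 - a := by linarith
  refine ⟨?_, ?_⟩
  · have h := hK hx.1 hx'.1 ha hb hab
    have e : (1 / 2 : ℝ) • c + (a • x + b • x') =
        a • ((1 / 2 : ℝ) • c + x) + b • ((1 / 2 : ℝ) • c + x') := by
      subst hb'; module
    rw [e]; exact h
  · have h := hK hx.2 hx'.2 ha hb hab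
    have e : (1 / 2 : ℝ) • c - (a • x + b • x') =
        a • ((1 / 2 : ℝ) • c - x) + b • ((1 / 2 : ℝ) • c - x') := by
      subst hb'; module
    rw [e]; exact h

theorem Z_compact {c : E n} {K : Set (E n)} (hK : IsCompact K) : IsCompact (Z c K) := by
  have h1 : IsCompact ((fun x : E n => x - (1 / 2 : ℝ) • c) '' K) :=
    hK.image (continuous_id.sub continuous_const)
  refine h1.of_isClosed_subset ?_ ?_
  · exact (hK.isClosed.preimage (continuous_const.add continuous_id)).inter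
      (hK.isClosed.preimage (continuous_const.sub continuous_id))
  · intro y hy
    exact ⟨(1 / 2 : ℝ) • c + y, hy.1, by simp⟩

/-- the upper bound for the volume of `K + ε Z` -/
theorem upper {c : E n} {K : Set (E n)} (hc : IsCompact K) (hK : Convex ℝ K) {ε : ℝ} (hε : 0 ≤ ε) :
    vol (K + ε • Z c K) ≤ (1 + ε) ^ n * vol K := by
  have h1 : K + ε • Z c K ⊆ (fun x => (ε / 2) • c + x) ⁻¹' ((1 + ε) • K) := by
    rintro _ ⟨x, hx, _, ⟨z, hz, rfl⟩, rfl⟩
    have h2 : x + ε • ((1 / 2 : ℝ) • c + z) ∈ (1 + ε) • K := by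
      rw [hK.add_smul zero_le_one hε, one_smul]
      exact Set.add_mem_add hx (Set.smul_mem_smul_set hz.1)
    have e : (ε / 2) • c + (x + ε • z) = x + ε • ((1 / 2 : ℝ) • c + z) := by module
    show (ε / 2) • c + (x + ε • z) ∈ (1 + ε) • K
    rw [e]; exact h2
  have h3 : volume ((fun x => (ε / 2) • c + x) ⁻¹' ((1 + ε) • K)) = volume ((1 + ε) • K) :=
    measure_preimage_add _ _ _
  have h4 : volume ((1 + ε) • K) ≠ ∞ := (hc.smul (1 + ε)).measure_lt_top.ne
  refine (vol_mono h1 (by rw [h3]; exact h4)).trans ?_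
  have h5 : vol ((fun x => (ε / 2) • c + x) ⁻¹' ((1 + ε) • K)) = vol ((1 + ε) • K) := by
    unfold vol; rw [h3]
  rw [h5, vol_smul _ (by linarith)]

/-- the Brunn-Minkowski lower bound -/
theorem lower {B W : Set (E n)} (hB : IsCompact B) (hBn : B.Nonempty) (hW : IsCompact W)
    (hWn : W.Nonempty) {b ζ ε : ℝ} (hb : 0 ≤ b) (hζ : 0 ≤ ζ) (hε : 0 ≤ ε) (h1 : b ^ n = vol B)
    (h2 : ζ ^ n = vol W) : (b + ε * ζ) ^ n ≤ vol (B + ε • W) := by
  have hf : finrank ℝ (E n) = n := finrank_euclideanSpace_fin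
  have hεW : IsCompact (ε • W) := hW.smul ε
  have k1 : ENNReal.ofReal (b ^ finrank ℝ (E n)) ≤ volume B := by
    rw [hf, h1]
    exact ENNReal.ofReal_toReal_le
  have k2 : ENNReal.ofReal ((ε * ζ) ^ finrank ℝ (E n)) ≤ volume (ε • W) := by
    rw [hf, mul_pow, h2, ← vol_smul ε hε]
    exact ENNReal.ofReal_toReal_le
  have k3 := Pool.Agent.Helper14K9.Iso.bm_pow volume hB hεW hBn (hWn.smul_set (a := ε)) hb
    (mul_nonneg hε hζ) k1 k2
  rw [hf] at k3
  have k4 : volume (B + ε • W) ≠ ∞ := (hB.add hεW).measure_lt_top.ne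
  exact (ENNReal.ofReal_le_iff_le_toReal k4).1 k3

end UP1

open UP1 in
theorem up1 : S_UP1 := by
  intro n K B c hn hK hB
  obtain ⟨hBb, hBn, hD⟩ := hB
  have hV0 : 0 ≤ vol K := ENNReal.toReal_nonneg
  by_cases hm : vol (sy c K) = 0
  · rw [hm, zero_mul]; exact pow_nonneg hV0 n
  have hBne : B.Nonempty := hBb.2.2.mono interior_subset
  have hZc : IsCompact (Z c K) := Z_compact hK.1
  have hZv : Convex ℝ (Z c K) := Z_convex hK.2.1
  have hZn : (Z c K).Nonempty := by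
    rw [nonempty_iff_ne_empty]
    intro h
    apply hm
    rw [← vol_Z, h]
    simp [vol]
  obtain ⟨b, hb0, hb⟩ := exists_root hn (vol_nonneg B)
  obtain ⟨ζ, hζ0, hζ⟩ := exists_root hn (vol_nonneg (Z c K))
  have hd := hD (Z c K) hZc hZv hZn
  -- the comparison function
  have hg1 : HasDerivAt (fun ε : ℝ => (b + ε * ζ) ^ n) (n * (b + 0 * ζ) ^ (n - 1) * (1 * ζ)) 0 :=
    (((hasDerivAt_id (0 : ℝ)).mul_const ζ).const_add b).pow n
  have hg2 : HasDerivAt (fun ε : ℝ => (1 + ε) ^ n * vol K) (n * (1 + 0) ^ (n - 1) * 1 * vol K) 0 :=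
    (((hasDerivAt_id (0 : ℝ)).const_add 1).pow n).mul_const _
  have hg := (hg1.sub hg2).hasDerivWithinAt (s := Ici 0)
  have hdg := hd.sub hg
  have hneg : ∀ ε : ℝ, 0 ≤ ε → vol (-K + ε • Z c K) ≤ (1 + ε) ^ n * vol K := by
    intro ε hε
    have e : -K + ε • Z c K = -(K + ε • Z c K) := by
      rw [neg_add, ← Set.smul_set_neg, Z_neg]
    rw [e, vol_neg]
    exact upper hK.1 hK.2.1 hε
  have hge : ∀ ε : ℝ, 0 ≤ ε → (b + ε * ζ) ^ n - (1 + ε) ^ n * vol K ≤
      vol (B + ε • Z c K) - (vol (K + ε • Z c K) + vol (-K + ε • Z c K)) / 2 := by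
    intro ε hε
    have k1 := lower hBb.1 hBne hZc hZn hb0 hζ0 hε hb hζ
    have k2 := upper (c := c) hK.1 hK.2.1 hε
    have k3 := hneg ε hε
    linarith
  have h0 : vol (B + (0 : ℝ) • Z c K) - (vol (K + (0 : ℝ) • Z c K) +
      vol (-K + (0 : ℝ) • Z c K)) / 2 = (b + 0 * ζ) ^ n - (1 + 0) ^ n * vol K := by
    rw [Set.zero_smul_set hZn, add_zero, add_zero, add_zero, vol_neg, zero_mul, add_zero, add_zero,
      one_pow, hb]
    ring
  have hfin := deriv_nonneg hdg (fun ε hε => by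
    have k1 := hge ε hε.le
    simp only [Pi.sub_apply]
    rw [h0]
    linarith)
  have hn' : (0 : ℝ) < n := by exact_mod_cast hn
  have hkey : b ^ (n - 1) * ζ ≤ vol K := by
    have k1 : (n : ℝ) * (b ^ (n - 1) * ζ) ≤ n * vol K := by
      have k2 := hfin
      simp only [zero_mul, add_zero, one_pow, mul_one, one_mul] at k2
      linarith
    exact le_of_mul_le_mul_left k1 hn'
  have hpow := pow_le_pow_left₀ (mul_nonneg (pow_nonneg hb0 _) hζ0) hkey n
  rw [mul_pow, ← pow_mul, mul_comm (n - 1) n, pow_mul, hb, hζ, vol_Z] at hpow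
  linarith

end Pool.Agent.H619.BB

end
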